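import Pool.Agent.H914R2.Weil
import Pool.Agent.Y133.Half.PwDefs

/-!
# Hodge theories with an action of the Galois group on the `ℓ`-adic cohomology: definitions

In the intended use `k` is a subfield of the complex numbers, the varieties are the smooth
projective geometrically connected ones over `k`, `W` is the cohomology `H(X(ℂ), ℚ)`, `V` is the
`ℓ`-adic cohomology and `Γ` is the absolute Galois group of `k`.
-/

open CategoryTheory AlgebraicGeometry TensorProduct

universe u

namespace Pool.Agent.K1H13.Z

section Alg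

/-- Subspaces of an algebra. -/
abbrev Sub (K A : Type) [Field K] [Ring A] [Algebra K A] : Type := Submodule K A

/-- Families of subspaces `pq a b` of the algebra `ℂ ⊗ A`, for integers `a` and `b`. -/
abbrev Types (K A : Type) [Field K] [Ring A] [Algebra K A] [Algebra K ℂ] : Type :=
  ℤ → ℤ → Submodule ℂ (ℂ ⊗[K] A)

/-- Actions of a group on an algebra. -/
abbrev Rep (K A Γ : Type) [Field K] [Ring A] [Algebra K A] [Group Γ] : Type := Γ →* (A ≃ₐ[K] A)

variable {K A B : Type} [Field K] [Ring A] [Algebra K A] [Ring B] [Algebra K B] {Γ : Type} [Group Γ]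
  {Λ A' : Type} [Field Λ] [Ring A'] [Algebra Λ A']

/-- The properties of the Hodge decomposition of the cohomology algebra `A` of a variety of
dimension `n`, with subspaces `gr i` of degree `i`, orientation `tr` and sets `C j` of classes of
cycles of codimension `j`. Here `pq a b` is the subspace of type `(a, b)` of `ℂ ⊗ A`. The last
property is the existence of the class `D` of a divisor which satisfies the hard Lefschetz theorem
and the Hodge-Riemann relations for the rational primitive classes of type `(j, j)`. -/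
structure IsHodgeAlgebra [Algebra K ℂ] (gr : ℕ → Submodule K A) (n : ℕ) (tr : A →ₗ[K] K)
    (C : ℕ → Set A) (pq : Types K A) : Prop where
  span : ∀ i : ℕ, ∀ c ∈ gr i,
    (1 : ℂ) ⊗ₜ[K] c ∈ ⨆ r : {r : ℤ × ℤ // r.1 + r.2 = i}, pq r.1.1 r.1.2
  le : ∀ (a b : ℤ) (i : ℕ), a + b = i → pq a b ≤ (gr i).baseChange ℂ
  indep : iSupIndep fun r : ℤ × ℤ => pq r.1 r.2
  mul : ∀ a b c d, ∀ x ∈ pq a b, ∀ y ∈ pq c d, x * y ∈ pq (a + c) (b + d)
  cyc : ∀ j : ℕ, ∀ c ∈ C j, (1 : ℂ) ⊗ₜ[K] c ∈ pq j j
  polar : ∃ D ∈ C 1,
    (∀ i ≤ n, (∀ x ∈ gr i, D ^ (n - i) * x = 0 → x = 0) ∧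
      ∀ y ∈ gr (2 * n - i), ∃ x ∈ gr i, D ^ (n - i) * x = y) ∧
    ∀ j : ℕ, 2 * j ≤ n → ∀ x ∈ gr (2 * j), (1 : ℂ) ⊗ₜ[K] x ∈ pq j j →
      D ^ (n - 2 * j + 1) * x = 0 → x ≠ 0 →
      ∃ r : ℚ, 0 < r ∧ (-1) ^ j * tr (D ^ (n - 2 * j) * x * x) = (r : K)

/-- The pull-back `f : B → A` and the push-forward `g : A → B` respect the types of the Hodge
decompositions; here `d` is the dimension of the target minus the dimension of the source. -/
def IsHodgeMap [Algebra K ℂ] (f : B →ₐ[K] A) (g : A →ₗ[K] B) (d : ℤ) (pq : Types K A)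
    (pq' : Types K B) : Prop :=
  ∀ a b, (∀ y ∈ pq' a b, Algebra.TensorProduct.map (AlgHom.id ℂ ℂ) f y ∈ pq a b) ∧
    ∀ x ∈ pq a b, g.baseChange ℂ x ∈ pq' (a + d) (b + d)

/-- The Hodge classes of degree `2 j`: the elements of degree `2 j` and of type `(j, j)`. -/
def hodgeCl [Algebra K ℂ] (gr : ℕ → Submodule K A) (pq : Types K A) (j : ℕ) : Set A :=
  {c | c ∈ gr (2 * j) ∧ (1 : ℂ) ⊗ₜ[K] c ∈ pq j j}

/-- The homomorphism `e : A → A'`, semilinear for `s : K → Λ`, identifies the `Λ`-algebra `A'` with
`Λ ⊗ A`; it respects the degrees and the orientations. -/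
structure IsCmp (s : K →+* Λ) (e : A →+* A') (gr : ℕ → Submodule K A) (gr' : ℕ → Submodule Λ A')
    (tr : A →ₗ[K] K) (tr' : A' →ₗ[Λ] Λ) : Prop where
  smul : ∀ r a, e (r • a) = s r • e a
  span : Submodule.span Λ (Set.range e) = ⊤
  rank : Module.finrank Λ A' = Module.finrank K A
  gr_mem : ∀ i, ∀ a ∈ gr i, e a ∈ gr' i
  tr_eq : ∀ a, tr' (e a) = s (tr a)

/-- The properties of the action `ρ` of the Galois group `Γ` on the `ℓ`-adic cohomology algebra `A`
of a variety of dimension `n`: it respects the degrees, it multiplies the elements of the top degree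
by `χ ^ n` and the classes of the cycles of codimension `j` by `χ ^ j`; here `χ` is the action on
the inverse of the Tate twist. -/
structure IsGaloisAlgebra (gr : ℕ → Submodule K A) (n : ℕ) (C : ℕ → Set A) (χ : Γ →* Kˣ)
    (ρ : Rep K A Γ) : Prop where
  gr_mem : ∀ g i, ∀ a ∈ gr i, ρ g a ∈ gr i
  top : ∀ g, ∀ a ∈ gr (2 * n), ρ g a = (χ g : K) ^ n • a
  cyc : ∀ g j, ∀ c ∈ C j, ρ g c = (χ g : K) ^ j • c

/-- The pull-back `f` is equivariant. -/
def IsGaloisMap (f : B →ₐ[K] A) (ρ : Rep K A Γ) (ρ' : Rep K B Γ) : Prop :=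
  ∀ g y, ρ g (f y) = f (ρ' g y)

/-- The homomorphisms `e` and `e'` are compatible with the pull-backs `f` and `f'`. -/
def IsCmpMap {B' : Type} [Ring B'] [Algebra Λ B'] (e : A →+* A') (e' : B →+* B') (f : B →ₐ[K] A)
    (f' : B' →ₐ[Λ] A') : Prop := ∀ b, e (f b) = f' (e' b)

/-- The Tate classes for a set `𝓢` of subgroups: the elements of `U` which are multiplied by
`χ g ^ j` by all elements `g` of some subgroup in `𝓢` (that is, the elements of the `j`-th Tate
twist of `U` which are fixed by some subgroup in `𝓢`). -/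
def tateCl (U : Submodule K A) (χ : Γ →* Kˣ) (ρ : Rep K A Γ) (𝓢 : Set (Subgroup Γ))
    (j : ℕ) : Set A :=
  {c | c ∈ U ∧ ∃ H ∈ 𝓢, ∀ g ∈ H, ρ g c = (χ g : K) ^ j • c}

/-- The rank of the form `(c, d) ↦ tr (c d)` on the subspace `M`. -/
noncomputable def formRk (tr : A →ₗ[K] K) (M : Submodule K A) : ℕ :=
  Module.finrank K (LinearMap.range (((LinearMap.mul K A).compr₂ tr).domRestrict₁₂ M M))

/-- The dimension of the sum of the subspaces. -/
noncomputable def totDim (M : ℕ → Sub K A) : ℕ := Module.finrank K (⨆ j, M j : Submodule K A)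

/-- The dimension of the sum of two families of subspaces. -/
noncomputable def totDim₂ (M N : ℕ → Sub K A) : ℕ := totDim fun j => M j ⊔ N j

/-- The rank of the form `(c, d) ↦ tr (c d)` on the sum of the intersections of two families of
subspaces. -/
noncomputable def totRk (tr : A →ₗ[K] K) (M N : ℕ → Sub K A) : ℕ :=
  formRk tr (⨆ j, M j ⊓ N j)

/-- The number of linearly independent elements of the sets `M j` whose images lie in `N j`. -/
noncomputable def pullDim (K : Type) [Field K] [Algebra K A] (e : A →+* A') (M : ℕ → Set A)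
    (N : ℕ → Sub Λ A') : ℕ :=
  Set.finrank K {c | ∃ j, c ∈ M j ∧ e c ∈ N j}

/-- All subspaces of the first family are contained in those of the second family. -/
def Within (M N : ℕ → Sub K A) : Prop := ∀ j, M j ≤ N j

end Alg

open Pool.Agent.H914 Pool.Agent.H914.VarClass Pool.Agent.H914.VarClass.Obj
  Pool.Agent.H914.WeilCohomology
open Pool.Agent.Y133.Half (pw)

variable {k : Type u} [Field k] {𝒱 : VarClass k}

/-- The classes of the cycles of codimension `j`. -/
def cycles {ops : CycleOps 𝒱} (W : WeilCohomology.{u, 0} ops) (X : 𝒱.Obj) (j : ℕ) : Set (W.H X) :=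
  {c | ∃ z, X.IsCyc j z ∧ W.cl X z = c}

/-- A rational Weil cohomology theory with Hodge decompositions. -/
structure Hodge (ops : CycleOps 𝒱) where
  /-- the cohomology with rational coefficients -/
  W : WeilCohomology.{u, 0} ops
  rat : ∀ r : W.K, ∃ q : ℚ, (q : W.K) = r
  [algC : Algebra W.K ℂ]
  /-- the spaces `H^(a,b)(X)` -/
  pq : ∀ X : 𝒱.Obj, Types W.K (W.H X)
  hodge : ∀ X, IsHodgeAlgebra (W.gr X) X.dim (W.tr X) (cycles W X) (pq X)
  hodge_map : ∀ {X Y : 𝒱.Obj} (f : X ⟶ Y),
    IsHodgeMap (W.map f) (W.push f) (Y.dim - X.dim) (pq X) (pq Y)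

attribute [instance] Hodge.algC

/-- A Weil cohomology theory with an action of a group `Γ` on the cohomology which has the formal
properties of the action of the absolute Galois group of `k` on the `ℓ`-adic cohomology. -/
structure Galois (ops : CycleOps 𝒱) where
  /-- the `ℓ`-adic cohomology -/
  V : WeilCohomology.{u, 0} ops
  /-- the Galois group -/
  Γ : Type
  [group : Group Γ]
  /-- the action on the inverse of the Tate twist -/
  χ : Γ →* V.Kˣ
  /-- the action on the cohomology -/
  act : ∀ X : 𝒱.Obj, Rep V.K (V.H X) Γ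
  galois : ∀ X, IsGaloisAlgebra (V.gr X) X.dim (cycles V X) χ (act X)
  galois_map : ∀ {X Y : 𝒱.Obj} (f : X ⟶ Y), IsGaloisMap (V.map f) (act X) (act Y)

attribute [instance] Galois.group

/-- A comparison isomorphism `Λ ⊗ W ≅ V` between two Weil cohomology theories, where `Λ` is the
coefficient field of `V`. -/
structure Cmp {ops : CycleOps 𝒱} (W V : WeilCohomology.{u, 0} ops) where
  /-- the homomorphism of the coefficients -/
  s : W.K →+* V.K
  /-- the homomorphisms -/
  e : ∀ X : 𝒱.Obj, W.H X →+* V.H X
  cmp : ∀ X, IsCmp s (e X) (W.gr X) (V.gr X) (W.tr X) (V.tr X)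
  nat : ∀ {X Y : 𝒱.Obj} (f : X ⟶ Y), IsCmpMap (e X) (e Y) (W.map f) (V.map f)
  cyc : ∀ (X : 𝒱.Obj) (z : X.Cycles), e X (W.cl X z) = V.cl X z

/-- A rational cohomology theory with Hodge decompositions and an `ℓ`-adic cohomology theory with
an action of the Galois group, with comparison isomorphisms between them. The `ℓ`-adic coefficients
can be embedded into the complex numbers. -/
structure HodgeTate (ops : CycleOps 𝒱) where
  /-- the Hodge theory -/
  B : Hodge ops
  /-- the `ℓ`-adic cohomology with the action of the Galois group -/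
  G : Galois ops
  /-- the comparison -/
  cmp : Cmp B.W G.V
  emb : Nonempty (G.V.K →+* ℂ)

variable {ops : CycleOps 𝒱} (H : HodgeTate ops) (X : 𝒱.Obj)

/-- The space spanned, over the `ℓ`-adic coefficients, by the images of the Hodge classes of degree
`2 j` in the `ℓ`-adic cohomology. -/
def HodgeTate.hdg (j : ℕ) : Sub H.G.V.K (H.G.V.H X) :=
  Submodule.span H.G.V.K (H.cmp.e X '' hodgeCl (H.B.W.gr X) (H.B.pq X) j)

/-- The space spanned by the Tate classes of degree `2 j`: the classes which are fixed by a subgroup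
of finite index, after the `j`-th Tate twist. -/
def HodgeTate.tate (j : ℕ) : Sub H.G.V.K (H.G.V.H X) :=
  Submodule.span H.G.V.K (tateCl (H.G.V.gr X (2 * j)) H.G.χ (H.G.act X) {S | S.FiniteIndex} j)

/-- The dimension of the space spanned by the Hodge classes of all degrees. -/
noncomputable def HodgeTate.hdgDim : ℕ := totDim (H.hdg X)

/-- The dimension of the space spanned by the Tate classes of all degrees. -/
noncomputable def HodgeTate.tateDim : ℕ := totDim (H.tate X)

/-- The dimension of the sum of the spaces spanned by the Hodge classes and by the Tate classes. -/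
noncomputable def HodgeTate.sumDim : ℕ := totDim₂ (H.hdg X) (H.tate X)

/-- The rank of the intersection form on the intersection of the spaces spanned by the Hodge classes
and by the Tate classes, in all degrees. -/
noncomputable def HodgeTate.commonRank : ℕ := totRk (H.G.V.tr X) (H.hdg X) (H.tate X)

/-- The number of linearly independent (rational) Hodge classes whose images are Tate classes. -/
noncomputable def HodgeTate.rationalDim : ℕ :=
  pullDim H.B.W.K (H.cmp.e X) (hodgeCl (H.B.W.gr X) (H.B.pq X)) (H.tate X)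

/-- The rank of the group of the classes of the cycles of all codimensions on `X`: the dimension of
the space spanned by these classes in the rational cohomology. -/
noncomputable def HodgeTate.cycleDim : ℕ := Set.finrank H.B.W.K (⋃ j, cycles H.B.W X j)

/-- On all powers of `X` all Hodge classes are Tate classes. -/
def HodgeTate.HodgeAreTate : Prop := ∀ n, Within (H.hdg (pw X n)) (H.tate (pw X n))

/-- On all powers of `X` all Tate classes are linear combinations of Hodge classes. -/
def HodgeTate.TateAreHodge : Prop := ∀ n, Within (H.tate (pw X n)) (H.hdg (pw X n))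

/-- The conjecture of Mumford and Tate for the powers of `X`: on all powers and in all degrees, the
space spanned by the Hodge classes is the space spanned by the Tate classes. -/
def HodgeTate.MumfordTate : Prop := ∀ n j, H.hdg (pw X n) j = H.tate (pw X n) j

/-- The quotient `a n / b n` tends to `0`. -/
def Negligible (a b : ℕ → ℕ) : Prop :=
  Filter.Tendsto (fun n => (a n : ℝ) / b n) Filter.atTop (nhds 0)

end Pool.Agent.K1H13.Z
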