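import Pool.Agent.K1H13.Z.Mix

/-!
# Algebra for the conversion of the definitions
-/

open TensorProduct

namespace Pool.Agent.K1H13.Z

open Module

section Ext

variable {K A A' Λ : Type} [Field K] [Ring A] [Algebra K A] [Field Λ] [Ring A'] [Algebra Λ A']
  [Algebra K Λ] (s : K →+* Λ) (hs : ∀ r, algebraMap K Λ r = s r) (e : A →+* A')
  (he : ∀ r a, e (r • a) = s r • e a)

lemma tower_aux : letI : Algebra K A' := Algebra.compHom A' (algebraMap K Λ)
    IsScalarTower K Λ A' := by
  letI : Algebra K A' := Algebra.compHom A' (algebraMap K Λ)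
  refine ⟨fun r l a => ?_⟩
  change (r • l) • a = algebraMap K Λ r • (l • a)
  rw [Algebra.smul_def r l, mul_smul]

/-- The homomorphism `Λ ⊗ A → A'` given by a semilinear homomorphism. -/
noncomputable def extHom : Λ ⊗[K] A →ₐ[Λ] A' :=
  letI : Algebra K A' := Algebra.compHom A' (algebraMap K Λ)
  haveI : IsScalarTower K Λ A' := tower_aux
  let e' : A →ₐ[K] A' :=
    { e with
      commutes' := fun r => by
        change e (algebraMap K A r) = algebraMap Λ A' (algebraMap K Λ r)
        rw [Algebra.algebraMap_eq_smul_one, he, map_one, hs, Algebra.algebraMap_eq_smul_one] }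
  Algebra.TensorProduct.lift (Algebra.ofId Λ A') e' fun l a => by
    change algebraMap Λ A' l * e a = e a * algebraMap Λ A' l
    exact Algebra.commutes l (e a)

lemma extHom_tmul (l : Λ) (a : A) : extHom s hs e he (l ⊗ₜ[K] a) = l • e a := by
  let _ : Algebra K A' := Algebra.compHom A' (algebraMap K Λ)
  have _ : IsScalarTower K Λ A' := tower_aux
  unfold extHom
  rw [Algebra.TensorProduct.lift_tmul]
  change algebraMap Λ A' l * e a = l • e a
  rw [Algebra.smul_def]

lemma extHom_bijective [Module.Finite K A] [Module.Finite Λ A']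
    (hspan : Submodule.span Λ (Set.range e) = ⊤)
    (hrank : Module.finrank Λ A' = Module.finrank K A) :
    Function.Bijective (extHom s hs e he) := by
  have hsurj : Function.Surjective (extHom s hs e he).toLinearMap := by
    rw [← LinearMap.range_eq_top, eq_top_iff, ← hspan]
    refine Submodule.span_le.2 ?_
    rintro _ ⟨a, rfl⟩
    refine ⟨1 ⊗ₜ a, ?_⟩
    rw [AlgHom.toLinearMap_apply, extHom_tmul, one_smul]
  have hfin : finrank Λ (Λ ⊗[K] A) = finrank Λ A' := by
    rw [Module.finrank_baseChange, hrank]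
  have hinj : Function.Injective (extHom s hs e he).toLinearMap :=
    (LinearMap.injective_iff_surjective_of_finrank_eq_finrank hfin).2 hsurj
  exact ⟨hinj, hsurj⟩

end Ext

section Map

variable {K A B : Type} [Field K] [Ring A] [Algebra K A] [Ring B] [Algebra K B] (φ : A ≃ₐ[K] B)

lemma iSup_map (M : ℕ → Sub K A) : (⨆ j, (M j).map φ.toLinearMap : Submodule K B) =
    (⨆ j, M j : Submodule K A).map φ.toLinearMap := (Submodule.map_iSup _ _).symm

lemma finrank_map (M : Submodule K A) : finrank K (M.map φ.toLinearMap) = finrank K M :=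
  LinearEquiv.finrank_map_eq φ.toLinearEquiv M

lemma totDim_map (M : ℕ → Sub K A) : totDim (fun j => (M j).map φ.toLinearMap) = totDim M := by
  rw [totDim, iSup_map, finrank_map]
  rfl

lemma sup_map (M N : ℕ → Sub K A) (j : ℕ) : (M j).map φ.toLinearMap ⊔ (N j).map φ.toLinearMap =
    (M j ⊔ N j).map φ.toLinearMap := (Submodule.map_sup _ _ _).symm

lemma inf_map (M N : ℕ → Sub K A) (j : ℕ) : (M j).map φ.toLinearMap ⊓ (N j).map φ.toLinearMap =
    (M j ⊓ N j).map φ.toLinearMap :=
  (Submodule.map_inf _ φ.injective).symm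

lemma totDim₂_map (M N : ℕ → Sub K A) :
    totDim₂ (fun j => (M j).map φ.toLinearMap) (fun j => (N j).map φ.toLinearMap) =
      totDim₂ M N := by
  rw [totDim₂, totDim₂, ← totDim_map φ]
  congr 1
  funext j
  exact sup_map φ M N j

lemma formRk_map (tr : B →ₗ[K] K) (M : Submodule K A) :
    formRk tr (M.map φ.toLinearMap) = formRk (tr ∘ₗ φ.toLinearMap) M := by
  let ψ : M ≃ₗ[K] (M.map φ.toLinearMap) := φ.toLinearEquiv.submoduleMap M
  have h1 : ∀ x y : M, tr ((ψ x : B) * (ψ y : B)) = tr (φ ((x : A) * (y : A))) := by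
    intro x y
    have hx : ((ψ x : M.map φ.toLinearMap) : B) = φ x := rfl
    have hy : ((ψ y : M.map φ.toLinearMap) : B) = φ y := rfl
    rw [hx, hy, map_mul φ]
  let f : M.map φ.toLinearMap →ₗ[K] M.map φ.toLinearMap →ₗ[K] K :=
    ((LinearMap.mul K B).compr₂ tr).domRestrict₁₂ (M.map φ.toLinearMap) (M.map φ.toLinearMap)
  let g : M →ₗ[K] M →ₗ[K] K :=
    ((LinearMap.mul K A).compr₂ (tr ∘ₗ φ.toLinearMap)).domRestrict₁₂ M M
  let δ : (M.map φ.toLinearMap →ₗ[K] K) ≃ₗ[K] (M →ₗ[K] K) := ψ.symm.congrLeft K K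
  have h2 : g = (δ.toLinearMap ∘ₗ f) ∘ₗ ψ.toLinearMap := by
    apply LinearMap.ext
    intro x
    apply LinearMap.ext
    intro y
    exact (h1 x y).symm
  change finrank K (LinearMap.range f) = finrank K (LinearMap.range g)
  rw [h2, LinearMap.range_comp_of_range_eq_top _ (LinearEquiv.range ψ), LinearMap.range_comp]
  exact (LinearEquiv.finrank_map_eq δ (LinearMap.range f)).symm

lemma totRk_map (tr : B →ₗ[K] K) (M N : ℕ → Sub K A) :
    totRk tr (fun j => (M j).map φ.toLinearMap) (fun j => (N j).map φ.toLinearMap) =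
      totRk (tr ∘ₗ φ.toLinearMap) M N := by
  have h : (⨆ j, (M j).map φ.toLinearMap ⊓ (N j).map φ.toLinearMap : Submodule K B) =
      (⨆ j, M j ⊓ N j : Submodule K A).map φ.toLinearMap := by
    rw [Submodule.map_iSup]
    exact iSup_congr fun j => inf_map φ M N j
  rw [totRk, h, formRk_map]
  rfl

end Map

end Pool.Agent.K1H13.Z
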