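import Mathlib

/-!
# Linear groups of finite exponent in characteristic zero are finite
-/

open scoped TensorProduct

namespace Pool.Agent.K1H13.Z

open Module

section Trace

variable {K U : Type*} [Field K] [AddCommGroup U] [Module K U] [FiniteDimensional K U]

/-- The sums of `n` roots of unity of order dividing `N`. -/
def rootSums (L : Type*) [Field L] (N : ℕ) : ℕ → Set L
  | 0 => {0}
  | n + 1 => Set.image2 (· + ·) {z | z ^ N = 1} (rootSums L N n)

lemma rootSums_finite (L : Type*) [Field L] {N : ℕ} (hN : 0 < N) : ∀ n,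
    (rootSums L N n).Finite
  | 0 => Set.finite_singleton 0
  | n + 1 => by
    classical
    refine Set.Finite.image2 _ ?_ (rootSums_finite L hN n)
    refine ((Polynomial.nthRoots N (1 : L)).toFinset.finite_toSet).subset ?_
    intro z hz
    have hz' : z ^ N = 1 := hz
    rw [Finset.mem_coe, Multiset.mem_toFinset]
    exact (Polynomial.mem_nthRoots hN).2 hz'

lemma mem_rootSums {L : Type*} [Field L] {N : ℕ} (s : Multiset L) (hs : ∀ z ∈ s, z ^ N = 1) :
    s.sum ∈ rootSums L N (Multiset.card s) := by
  induction s using Multiset.induction_on with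
  | empty => simp [rootSums]
  | cons a s ih =>
    rw [Multiset.sum_cons, Multiset.card_cons]
    exact ⟨a, hs a (Multiset.mem_cons_self a s), s.sum,
      ih fun z hz => hs z (Multiset.mem_cons_of_mem hz), rfl⟩

/-- The traces of the operators of finite exponent. -/
lemma trace_mem (f : End K U) {N : ℕ} (hf : f ^ N = 1) :
    algebraMap K (AlgebraicClosure K) (LinearMap.trace K U f) ∈
      rootSums (AlgebraicClosure K) N (finrank K U) := by
  set L := AlgebraicClosure K
  have h1 : LinearMap.trace L (L ⊗[K] U) (f.baseChange L) = algebraMap K L (LinearMap.trace K U f) :=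
    LinearMap.trace_baseChange f L
  have hfL : (f.baseChange L : End L (L ⊗[K] U)) ^ N = 1 := by
    have h2 : ∀ n : ℕ, (f.baseChange L : End L (L ⊗[K] U)) ^ n = (f ^ n).baseChange L := by
      intro n
      induction n with
      | zero => rw [pow_zero, pow_zero, LinearMap.baseChange_one]
      | succ n ih => rw [pow_succ, pow_succ, ih, LinearMap.baseChange_mul]
    rw [h2, hf, LinearMap.baseChange_one]
  have h3 := Module.End.trace_eq_sum_roots_charpoly_of_splits
    (f := (f.baseChange L : End L (L ⊗[K] U))) (IsAlgClosed.splits _)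
  rw [← h1, h3]
  have h4 : Multiset.card (LinearMap.charpoly (f.baseChange L : End L (L ⊗[K] U))).roots =
      finrank K U := by
    have h5 := (IsAlgClosed.splits (LinearMap.charpoly
      (f.baseChange L : End L (L ⊗[K] U)))).natDegree_eq_card_roots
    rw [← h5, LinearMap.charpoly_natDegree, Module.finrank_baseChange]
  rw [← h4]
  apply mem_rootSums
  intro z hz
  have h5 : (LinearMap.charpoly (f.baseChange L : End L (L ⊗[K] U))).IsRoot z :=
    Polynomial.isRoot_of_mem_roots hz
  rw [← Module.End.hasEigenvalue_iff_isRoot_charpoly] at h5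
  obtain ⟨v, hv⟩ := h5.exists_hasEigenvector
  have h6 := hv.pow_apply N
  rw [hfL, Module.End.one_apply] at h6
  have h7 : ((z ^ N : L) - 1) • v = 0 := by
    have h8 := sub_smul (z ^ N : L) 1 v
    rw [h8, one_smul, ← h6, sub_self]
  exact sub_eq_zero.1 ((smul_eq_zero.1 h7).resolve_right hv.2)

end Trace

section Group

variable {K U : Type*} [Field K] [CharZero K] [AddCommGroup U] [Module K U]
  [FiniteDimensional K U] {H : Type*} [Group H]

/-- An operator of finite order all of whose powers have the trace of the identity is trivial. -/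
lemma eq_one_of_trace {u : End K U} {N : ℕ} (hN : 0 < N) (hu : u ^ N = 1)
    (h : ∀ i, LinearMap.trace K U (u ^ i) = finrank K U) : u = 1 := by
  have hN' : (N : K) ≠ 0 := by exact_mod_cast hN.ne'
  set e : End K U := (N : K)⁻¹ • ∑ i ∈ Finset.range N, u ^ i with he
  have hue : u * e = e := by
    rw [he, mul_smul_comm, Finset.mul_sum]
    congr 1
    have h1 : ∑ i ∈ Finset.range N, u * u ^ i = ∑ i ∈ Finset.range N, u ^ (i + 1) :=
      Finset.sum_congr rfl fun i _ => (pow_succ' u i).symm
    have h2 := Finset.sum_range_succ (fun i => u ^ i) N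
    have h3 := Finset.sum_range_succ' (fun i => u ^ i) N
    rw [h1]
    rw [h2, hu, pow_zero] at h3
    exact (add_right_cancel h3).symm
  have hpe : ∀ i, u ^ i * e = e := by
    intro i
    induction i with
    | zero => rw [pow_zero, one_mul]
    | succ i ih => rw [pow_succ, mul_assoc, hue, ih]
  have hee : IsIdempotentElem e := by
    change e * e = e
    conv_lhs => rw [he]
    rw [smul_mul_assoc, Finset.sum_mul, Finset.sum_congr rfl fun i _ => hpe i, Finset.sum_const,
      Finset.card_range, ← Nat.cast_smul_eq_nsmul K, smul_smul, inv_mul_cancel₀ hN', one_smul]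
  have htr : LinearMap.trace K U e = finrank K U := by
    rw [he, map_smul, map_sum, Finset.sum_congr rfl fun i _ => h i, Finset.sum_const,
      Finset.card_range, nsmul_eq_mul, smul_eq_mul, ← mul_assoc, inv_mul_cancel₀ hN', one_mul]
  have h1 : IsIdempotentElem (1 - e) := hee.one_sub
  have h2 : (1 - e : End K U) = 0 := by
    apply LinearMap.IsIdempotentElem.eq_zero_of_trace_eq_zero h1
    rw [map_sub, LinearMap.trace_one, htr, sub_self]
  have h3 : e = 1 := (sub_eq_zero.1 h2).symm
  rw [h3, mul_one] at hue
  exact hue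

/-- **Burnside.** A linear group of finite exponent over a field of characteristic zero is
finite. -/
theorem finite_range_of_pow (ρ : H →* End K U) {N : ℕ} (hN : 0 < N) (h : ∀ g, ρ g ^ N = 1) :
    (Set.range ρ).Finite := by
  classical
  -- finitely many elements span the algebra
  obtain ⟨s, hs, hspan⟩ : ∃ s : Set (End K U), s ⊆ Set.range ρ ∧ s.Finite ∧
      Submodule.span K s = Submodule.span K (Set.range ρ) := by
    obtain ⟨b, hb1, hb2, hb3⟩ := exists_linearIndependent K (Set.range ρ)
    exact ⟨b, hb1, hb3.setFinite, hb2⟩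
  obtain ⟨hs2, hspan⟩ := hspan
  have hfin : {F : s → K | ∀ x, F x ∈ {t : K | algebraMap K (AlgebraicClosure K) t ∈
      rootSums (AlgebraicClosure K) N (finrank K U)}}.Finite := by
    have : Finite s := hs2.to_subtype
    refine Set.Finite.pi' fun _ => ?_
    exact (rootSums_finite (AlgebraicClosure K) hN (finrank K U)).preimage
      ((algebraMap K (AlgebraicClosure K)).injective.injOn)
  refine Set.Finite.of_finite_image (f := fun a : End K U => fun x : s =>
    LinearMap.trace K U (a * x)) (hfin.subset ?_) ?_
  · rintro _ ⟨_, ⟨g, rfl⟩, rfl⟩ ⟨x, hx⟩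
    obtain ⟨g', rfl⟩ := hs hx
    change algebraMap K (AlgebraicClosure K) (LinearMap.trace K U (ρ g * ρ g')) ∈
      rootSums (AlgebraicClosure K) N (finrank K U)
    apply trace_mem
    rw [← map_mul, h]
  · rintro _ ⟨g, rfl⟩ _ ⟨g', rfl⟩ heq
    have h1 : ∀ x ∈ Submodule.span K (Set.range ρ), LinearMap.trace K U (ρ g * x) =
        LinearMap.trace K U (ρ g' * x) := by
      intro x hx
      rw [← hspan] at hx
      induction hx using Submodule.span_induction with
      | mem x hx => exact congrFun heq ⟨x, hx⟩
      | zero => rw [mul_zero, mul_zero]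
      | add x y _ _ hx hy => rw [mul_add, mul_add, map_add, map_add, hx, hy]
      | smul c x _ hx => rw [mul_smul_comm, mul_smul_comm, map_smul, map_smul, hx]
    have h2 : ∀ k : H, LinearMap.trace K U (ρ (g'⁻¹ * g * k)) = LinearMap.trace K U (ρ k) := by
      intro k
      have h3 := h1 (ρ (k * g'⁻¹)) (Submodule.subset_span ⟨_, rfl⟩)
      have h4 : LinearMap.trace K U (ρ g * ρ (k * g'⁻¹)) =
          LinearMap.trace K U (ρ (g'⁻¹ * g * k)) := by
        rw [map_mul ρ k, ← mul_assoc, LinearMap.trace_mul_comm, ← mul_assoc, ← map_mul, ← map_mul]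
      have h5 : LinearMap.trace K U (ρ g' * ρ (k * g'⁻¹)) = LinearMap.trace K U (ρ k) := by
        rw [map_mul ρ k, ← mul_assoc, LinearMap.trace_mul_comm, ← mul_assoc, ← map_mul,
          inv_mul_cancel, map_one, one_mul]
      rw [← h4, h3, h5]
    have h3 : ρ (g'⁻¹ * g) = 1 := by
      refine eq_one_of_trace hN (h _) fun i => ?_
      induction i with
      | zero => rw [pow_zero, LinearMap.trace_one]
      | succ i ih =>
        rw [pow_succ', ← map_pow, ← map_mul, h2, map_pow]
        exact ih
    have h4 : ρ g = ρ g' * ρ (g'⁻¹ * g) := by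
      rw [← map_mul, mul_inv_cancel_left]
    rw [h4, h3, mul_one]

end Group

end Pool.Agent.K1H13.Z
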