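import Pool.Agent.Y121.AH.Defs
import Pool.Agent.K1H13.L.Defs

/-!
# Hodge classes and Tate classes in the `ℓ`-adic cohomology: definitions
-/

open CategoryTheory AlgebraicGeometry

universe u v

namespace Pool.Agent.K1H13.Z

open Pool.Agent.H914 Pool.Agent.H914.VarClass Pool.Agent.H914.VarClass.Obj
  Pool.Agent.H914.WeilCohomology
open Pool.Agent.Y121.AH (HodgeTheory IsHodge em)
open Pool.Agent.Y133.Half (dimOf)
open Pool.Agent.K1H13.L (GaloisAction)

variable {k : Type u} [Field k] {𝒱 : VarClass k} {ops : CycleOps 𝒱}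

/-- The space spanned, over the coefficient field `Λ`, by the images `1 ⊗ c` of the Hodge classes
`c` of degree `2 j` on `X` in the cohomology with coefficients `Λ`. -/
noncomputable def hodgeSpan (T : HodgeTheory ops) (Λ : Type) [Field Λ] [Algebra T.W.K Λ]
    (X : 𝒱.Obj) (j : ℕ) : Submodule (baseW T.W Λ).K ((baseW T.W Λ).H X) :=
  Submodule.span _ {x | ∃ c, IsHodge T X j c ∧ em T.W Λ c = x}

/-- The Tate classes of degree `2 j` over the extensions of the ground field: the classes of degree
`2 j` which are multiplied by `χ g ^ j` by all elements `g` of some subgroup of finite index (after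
the `j`-th Tate twist, they are fixed by a subgroup of finite index). -/
def potTate {V : WeilCohomology.{u, v} ops} {Γ : Type} [Group Γ] (G : GaloisAction V Γ)
    (X : 𝒱.Obj) (j : ℕ) : Submodule V.K (V.H X) where
  carrier := {c | c ∈ V.gr X (2 * j) ∧ ∃ H : Subgroup Γ, H.FiniteIndex ∧
    ∀ g ∈ H, G.act X g c = (G.χ g : V.K) ^ j • c}
  add_mem' := by
    rintro a b ⟨ha, H, hH, haH⟩ ⟨hb, H', hH', hbH⟩
    refine ⟨Submodule.add_mem _ ha hb, H ⊓ H', inferInstance, fun g hg => ?_⟩
    rw [map_add, haH g hg.1, hbH g hg.2, smul_add]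
  zero_mem' := ⟨Submodule.zero_mem _, ⊤, inferInstance, fun g _ => by rw [map_zero, smul_zero]⟩
  smul_mem' := by
    rintro r a ⟨ha, H, hH, haH⟩
    refine ⟨Submodule.smul_mem _ _ ha, H, hH, fun g hg => ?_⟩
    rw [map_smul, haH g hg, smul_comm]

/-- The rank of the intersection form `(c, d) ↦ tr (c d)` on the space spanned by the set `M` of
classes on `X`. -/
noncomputable def formRank (V : WeilCohomology.{u, v} ops) (X : 𝒱.Obj) (M : Set (V.H X)) : ℕ :=
  dimOf V M - dimOf V {c | c ∈ Submodule.span V.K M ∧ ∀ d ∈ M, V.tr X (c * d) = 0}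

end Pool.Agent.K1H13.Z
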