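import Pool.Agent.K1H13.Z.Unif
import Pool.Agent.K1H13.Z.Burn
import Pool.Agent.Y121.AH.ZeroOne

/-!
# Classes which are generated by finitely many classes under Tate correspondences are Tate classes
-/

open CategoryTheory AlgebraicGeometry

universe u v

namespace Pool.Agent.K1H13.Z

open Module
open Pool.Agent.H914 Pool.Agent.H914.VarClass Pool.Agent.H914.VarClass.Obj
  Pool.Agent.H914.WeilCohomology
open Pool.Agent.Y133.Half Pool.Agent.Y121.AH
open Pool.Agent.K1H13.L (GaloisAction act_inv push_act)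

variable {k : Type u} [Field k] {𝒱 : VarClass k} {ops : CycleOps 𝒱}

section Pred

variable {V : WeilCohomology.{u, v} ops} {Γ : Type} [Group Γ] (G : GaloisAction V Γ)
  {X Y Z : 𝒱.Obj}

/-- The Tate classes over the extensions of the ground field. -/
def potPred : ClassPred V where
  P X j c := c ∈ potTate G X j
  gr h := h.1
  zero := Submodule.zero_mem _
  add ha hb := Submodule.add_mem _ ha hb
  smul r _ ha := Submodule.smul_mem _ r ha
  cl {X j z} hz := ⟨V.cl_mem hz, ⊤, inferInstance,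
    fun g _ => (G.galois X).cl_act g j _ ⟨z, hz, rfl⟩⟩
  mul {X i j a b} ha hb := by
    obtain ⟨ha, H, hH, haH⟩ := ha
    obtain ⟨hb, H', hH', hbH⟩ := hb
    refine ⟨?_, H ⊓ H', inferInstance, fun g hg => ?_⟩
    · have := V.mul_mem ha hb
      rwa [show 2 * i + 2 * j = 2 * (i + j) by ring] at this
    · rw [map_mul, haH g hg.1, hbH g hg.2, smul_mul_smul_comm, pow_add]
  map {X Y} f j a ha := by
    obtain ⟨ha, H, hH, haH⟩ := ha
    exact ⟨V.map_mem f ha, H, hH, fun g hg => by rw [G.map f, haH g hg, map_smul]⟩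
  push {X Y} f j l hl a ha := by
    obtain ⟨ha, H, hH, haH⟩ := ha
    refine ⟨?_, H, hH, fun g hg => push_act G f hl g (haH g hg)⟩
    have h2 := V.push_mem f ha
    have e1 : ((2 * j : ℕ) : ℤ) + 2 * ((Y.dim : ℤ) - X.dim) = ((2 * l : ℕ) : ℤ) := by
      push_cast; omega
    rw [e1, grZ_natCast] at h2
    exact h2

end Pred

section Span

variable {V : WeilCohomology.{u, v} ops} {Γ : Type} [Group Γ] (G : GaloisAction V Γ)
  {Z : 𝒱.Obj} (H₀ : Subgroup Γ) (v : V.H Z)

/-- The space spanned by the orbit of a class under the twisted action. -/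
noncomputable def orb : Submodule V.K (V.H Z) :=
  Submodule.span V.K (Set.range fun h : H₀ => tw G (h : Γ) Z v)

lemma orb_stable (g : H₀) (x : V.H Z) (hx : x ∈ orb G H₀ v) : tw G (g : Γ) Z x ∈ orb G H₀ v := by
  induction hx using Submodule.span_induction with
  | mem x hx =>
    obtain ⟨h, rfl⟩ := hx
    refine Submodule.subset_span ⟨g * h, ?_⟩
    change tw G ((g : Γ) * (h : Γ)) Z v = _
    rw [tw_mul_elt]
  | zero => rw [map_zero]; exact Submodule.zero_mem _
  | add x y _ _ hx hy => rw [map_add]; exact Submodule.add_mem _ hx hy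
  | smul r x _ hx => rw [map_smul]; exact Submodule.smul_mem _ _ hx

/-- The representation on the span of the orbit. -/
noncomputable def orbRep : H₀ →* End V.K (orb G H₀ v) where
  toFun g := (tw G (g : Γ) Z).restrict (orb_stable G H₀ v g)
  map_one' := by
    ext x
    exact tw_one (G := G) (x : V.H Z)
  map_mul' g h := by
    ext x
    exact tw_mul_elt (G := G) (g : Γ) (h : Γ) (x : V.H Z)

lemma orbRep_apply (g : H₀) (x : orb G H₀ v) :
    ((orbRep G H₀ v g x : orb G H₀ v) : V.H Z) = tw G (g : Γ) Z (x : V.H Z) := rfl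

lemma tw_pow (g : Γ) (N : ℕ) (x : V.H Z) : (tw G g Z ^ N) x = tw G (g ^ N) Z x := by
  induction N with
  | zero => rw [pow_zero, pow_zero, tw_one]; rfl
  | succ N ih => rw [pow_succ', pow_succ', Module.End.mul_apply, ih, tw_mul_elt]

variable {G H₀ v}

/-- If all elements of a subgroup of finite index have order dividing `N` on the class, the class
is fixed by a subgroup of finite index. -/
lemma exists_fix [H₀.FiniteIndex] {N : ℕ} (hN : 0 < N)
    (h : ∀ g ∈ H₀, (tw G g Z ^ N) v = v) :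
    ∃ H : Subgroup Γ, H.FiniteIndex ∧ ∀ g ∈ H, tw G g Z v = v := by
  classical
  have h1 : ∀ g : H₀, ∀ x ∈ orb G H₀ v, (tw G (g : Γ) Z ^ N) x = x := by
    intro g x hx
    induction hx using Submodule.span_induction with
    | mem x hx =>
      obtain ⟨h', rfl⟩ := hx
      have h2 := h ((h' : Γ)⁻¹ * g * h') (H₀.mul_mem (H₀.mul_mem (H₀.inv_mem h'.2) g.2) h'.2)
      rw [tw_pow] at h2 ⊢
      change tw G ((g : Γ) ^ N) Z (tw G (h' : Γ) Z v) = tw G (h' : Γ) Z v
      rw [← tw_mul_elt]
      have h3 : (g : Γ) ^ N * h' = h' * ((h' : Γ)⁻¹ * g * h') ^ N := by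
        have h4 : ((h' : Γ)⁻¹ * g * h') ^ N = (h' : Γ)⁻¹ * g ^ N * h' := by
          have := conj_pow (i := N) (a := (h' : Γ)⁻¹) (b := (g : Γ))
          rwa [inv_inv] at this
        rw [h4]
        group
      rw [h3, tw_mul_elt, h2]
    | zero => rw [map_zero]
    | add x y _ _ hx hy => rw [map_add, hx, hy]
    | smul r x _ hx => rw [map_smul, hx]
  have h2 : ∀ g, orbRep G H₀ v g ^ N = 1 := by
    intro g
    rw [← map_pow]
    ext x
    change tw G ((g ^ N : H₀) : Γ) Z (x : V.H Z) = x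
    have h3 := h1 g x x.2
    rw [tw_pow] at h3
    exact h3
  have h3 := finite_range_of_pow (orbRep G H₀ v) hN h2
  let F : H₀ →* (End V.K (orb G H₀ v))ˣ := (orbRep G H₀ v).toHomUnits
  have hF : Finite F.range := by
    have h4 : (Set.range F).Finite := by
      refine Set.Finite.of_finite_image (f := fun u : (End V.K (orb G H₀ v))ˣ =>
        (u : End V.K (orb G H₀ v))) (h3.subset ?_) (fun a _ b _ hab => Units.ext hab)
      rintro _ ⟨_, ⟨g, rfl⟩, rfl⟩
      exact ⟨g, rfl⟩
    exact h4.to_subtype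
  have h5 : F.ker.FiniteIndex := Subgroup.finiteIndex_ker F
  have hv : v ∈ orb G H₀ v := Submodule.subset_span ⟨1, tw_one (G := G) v⟩
  refine ⟨F.ker.map H₀.subtype, ?_, ?_⟩
  · constructor
    rw [Subgroup.index_map_subtype]
    exact Nat.mul_ne_zero h5.index_ne_zero (Subgroup.FiniteIndex.index_ne_zero)
  · rintro _ ⟨g, hg, rfl⟩
    have h6 : orbRep G H₀ v g = 1 := by
      have h7 : F g = 1 := hg
      exact congrArg Units.val h7
    have h8 := congrArg (fun f : End V.K (orb G H₀ v) => ((f ⟨v, hv⟩ : orb G H₀ v) : V.H Z)) h6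
    exact h8

end Span

section Core

variable {V : WeilCohomology.{u, 0} ops} {Γ : Type} [Group Γ] {G : GaloisAction V Γ}
  {X P Z : 𝒱.Obj}

lemma xpw_gr' {j : ℕ} {v : V.H Z} (hv : v ∈ V.gr Z (2 * j)) :
    ∀ m, xpw V v m ∈ V.gr (pw Z m) (2 * (j * (m + 1)))
  | 0 => by rw [zero_add, mul_one]; exact hv
  | m + 1 => by
    have h := V.mul_mem (V.map_mem (fst (pw Z m) Z) (xpw_gr' hv m)) (V.map_mem (snd (pw Z m) Z) hv)
    rw [show 2 * (j * (m + 1)) + 2 * j = 2 * (j * (m + 1 + 1)) by ring] at h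
    exact h

lemma tw_xpw (g : Γ) {v : V.H Z} (hv : v ∈ PH V Z 0) :
    ∀ m, tw G g (pw Z m) (xpw V v m) = xpw V (tw G g Z v) m
  | 0 => rfl
  | m + 1 => by
    have h : tw G g ((pw Z m).prod Z) (xp V (xpw V v m) v) =
        xp V (xpw V (tw G g Z v) m) (tw G g Z v) := by
      rw [xp, tw_mul (PH.map _ (xpw_even hv m)), tw_map, tw_map, tw_xpw g hv m, xp]
    exact h

lemma xpw_mem' (S : Sys V) {v : V.H Z} (hv : v ∈ S.C Z) : ∀ m, xpw V v m ∈ S.C (pw Z m)
  | 0 => hv
  | m + 1 => by
    have h := Sys.xp_mem_C S (xpw_mem' S hv m) hv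
    exact h

/-- **Generation under Tate correspondences.** If all classes of a system on the powers of `X` are
obtained from those on one power by operators given by Tate classes, they are Tate classes. -/
theorem pot_of_genBy {S T : Sys V} (hS : ∀ X, S.C X ≤ (potPred G).sp X) {m₀ : ℕ}
    (hP : Nonempty (P ≅ pw X m₀)) (h : GenBy S T X P) {n j : ℕ} {c : V.H (pw X n)}
    (hc : c ∈ T.C (pw X n)) (hcj : c ∈ V.gr (pw X n) (2 * j)) : c ∈ potTate G (pw X n) j := by
  obtain ⟨H₀, hH₀, hfix⟩ := exists_unif G X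
  obtain ⟨θ⟩ := hP
  -- the classes of the system `S` are fixed
  have hSfix : ∀ (m : ℕ) (Z : 𝒱.Obj), Nonempty (Z ≅ pw X m) → ∀ g ∈ H₀, ∀ c ∈ S.C Z,
      tw G g Z c = c := by
    intro m Z hZ g hg c hc
    refine ClassPred.sp_ind (Q := potPred G) (q := fun c => tw G g Z c = c) ?_ ?_ ?_ (hS Z hc)
    · intro j x hx
      exact (tw_fix_iff hx.1).2 (hfix m Z hZ j x hx g hg)
    · rw [map_zero]
    · intro a b ha hb; rw [map_add, ha, hb]
  set N := (finrank V.K (V.H P)).factorial with hN
  have hpow : ∀ g ∈ H₀, (tw G g (pw X n) ^ N) c = c := by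
    intro g hg
    have hdeg : (LinearMap.charpoly (tw G g P)).natDegree = finrank V.K (V.H P) :=
      LinearMap.charpoly_natDegree _
    rw [hN, ← hdeg]
    have hgr : ∀ i : ℕ, (tw G g (pw X n) ^ i) c ∈ V.gr (pw X n) (2 * j) := by
      intro i
      induction i with
      | zero => exact hcj
      | succ i ih => rw [pow_succ', Module.End.mul_apply]; exact tw_mem ih
    refine pow_fix (fun Z => tw G g Z) hgr ?_ (tw_injective g)
      (LinearMap.charpoly_monic _) fun m => ?_
    · intro m i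
      induction i with
      | zero => rfl
      | succ i ih =>
        rw [pow_succ', Module.End.mul_apply, ih, pow_succ', Module.End.mul_apply,
          tw_xpw g (PH.of' (b := 0) (by omega) (hgr i))]
    · obtain ⟨r, ⟨θ'⟩⟩ := pw_pw X n m
      refine gen_tw (S := S) (M := T.C P) ?_ (LinearMap.aeval_self_charpoly _)
        (h r _ ⟨θ'⟩ (xpw_mem' _ hc m))
      exact hSfix (m₀ + r + 1) _ ⟨prodCongr θ θ' ≪≫ pwAdd X m₀ r⟩ g hg
  obtain ⟨H, hH, hHc⟩ := exists_fix (Nat.factorial_pos _) hpow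
  exact ⟨hcj, H, hH, fun g hg => (tw_fix_iff hcj).1 (hHc g hg)⟩

end Core

end Pool.Agent.K1H13.Z
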