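import Pool.Agent.K1H13.Z.Real
import Pool.Agent.K1H13.Z.Pot

/-!
# Zero-one laws for the comparison of Hodge classes and Tate classes
-/

open CategoryTheory AlgebraicGeometry TensorProduct Filter Topology

universe u v

namespace Pool.Agent.K1H13.Z

open Module
open Pool.Agent.H914 Pool.Agent.H914.VarClass Pool.Agent.H914.VarClass.Obj
  Pool.Agent.H914.WeilCohomology
open Pool.Agent.Y133.Half Pool.Agent.Y121.AH
open Pool.Agent.K1H13.L (GaloisAction act_inv push_act)

variable {k : Type u} [Field k] {𝒱 : VarClass k} {ops : CycleOps 𝒱}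

section Inter

variable {V : WeilCohomology.{u, v} ops} {X Y Z : 𝒱.Obj}

/-- The classes with both properties. -/
def interPred (Q Q' : ClassPred V) : ClassPred V where
  P X j c := Q.P X j c ∧ Q'.P X j c
  gr h := Q.gr h.1
  zero := ⟨Q.zero, Q'.zero⟩
  add ha hb := ⟨Q.add ha.1 hb.1, Q'.add ha.2 hb.2⟩
  smul r _ ha := ⟨Q.smul r ha.1, Q'.smul r ha.2⟩
  cl hz := ⟨Q.cl hz, Q'.cl hz⟩
  mul ha hb := ⟨Q.mul ha.1 hb.1, Q'.mul ha.2 hb.2⟩
  map f _ _ ha := ⟨Q.map f ha.1, Q'.map f ha.2⟩
  push f _ _ hl _ ha := ⟨Q.push f hl ha.1, Q'.push f hl ha.2⟩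

lemma inter_le_left (Q Q' : ClassPred V) (X : 𝒱.Obj) : (interPred Q Q').sys.C X ≤ Q.sys.C X :=
  Submodule.span_mono fun _ ⟨j, hj⟩ => ⟨j, hj.1⟩

lemma inter_le_right (Q Q' : ClassPred V) (X : 𝒱.Obj) : (interPred Q Q').sys.C X ≤ Q'.sys.C X :=
  Submodule.span_mono fun _ ⟨j, hj⟩ => ⟨j, hj.2⟩

lemma formRank_eq (Q : ClassPred V) (X : 𝒱.Obj) :
    formRank V X {c | ∃ j, Q.P X j c} = Q.sys.a X := by
  have h := Q.sys.a_add_num X
  have h1 : dimOf V {c | c ∈ Submodule.span V.K {c | ∃ j, Q.P X j c} ∧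
      ∀ d ∈ {c | ∃ j, Q.P X j c}, V.tr X (c * d) = 0} = finrank V.K (Q.sys.Num X) := by
    have h2 : {c | c ∈ Submodule.span V.K {c | ∃ j, Q.P X j c} ∧
      ∀ d ∈ {c | ∃ j, Q.P X j c}, V.tr X (c * d) = 0} = (Q.sys.Num X : Set (V.H X)) := by
      ext c
      constructor
      · rintro ⟨h1, h2⟩
        refine ⟨h1, fun d hd => ?_⟩
        exact ClassPred.sp_ind (Q := Q) (q := fun d => V.tr X (c * d) = 0)
          (fun j x hx => h2 x ⟨j, hx⟩) (by rw [mul_zero, map_zero])
          (fun a b ha hb => by rw [mul_add, map_add, ha, hb, add_zero]) hd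
      · rintro ⟨h1, h2⟩
        exact ⟨h1, fun d hd => h2 d (Submodule.subset_span hd)⟩
    rw [dimOf, Set.finrank, h2, Submodule.span_eq]
  have h3 : dimOf V {c | ∃ j, Q.P X j c} = finrank V.K (Q.sys.C X) := rfl
  rw [formRank, h1, h3]
  exact (Nat.eq_sub_of_add_eq h).symm

/-- Nondegenerate spaces of classes. -/
lemma le_a (S : Sys V) {U : Submodule V.K (V.H X)} (hU : U ≤ S.C X)
    (hnd : ∀ x ∈ U, (∀ y ∈ U, V.tr X (x * y) = 0) → x = 0) : finrank V.K U ≤ S.a X := by
  have h := S.a_add_num X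
  have h1 : U ⊓ S.Num X = ⊥ := by
    rw [eq_bot_iff]
    rintro x ⟨hx, hx'⟩
    exact hnd x hx fun y hy => hx'.2 y (hU hy)
  have h2 := Submodule.finrank_sup_add_finrank_inf_eq U (S.Num X)
  have h3 : finrank V.K (U ⊔ S.Num X : Submodule V.K (V.H X)) ≤ finrank V.K (S.C X) :=
    Submodule.finrank_mono (sup_le hU fun x hx => hx.1)
  rw [h1, finrank_bot, add_zero] at h2
  omega

/-- In the top degree all classes are multiplied by the power of the character. -/
lemma top_tate {Γ : Type} [Group Γ] (G : GaloisAction V Γ) {c : V.H X}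
    (hc : c ∈ V.gr X (2 * X.dim)) (g : Γ) : G.act X g c = (G.χ g : V.K) ^ X.dim • c := by
  rw [← sub_eq_zero]
  apply V.nondeg
  intro b
  refine gr_induction (V.isInternal X)
    (p := fun b => V.tr X ((G.act X g c - (G.χ g : V.K) ^ X.dim • c) * b) = 0) ?_ ?_ b
  · intro j b hb
    rcases Nat.eq_zero_or_pos j with rfl | hj
    · rw [V.gr_zero] at hb
      obtain ⟨r, rfl⟩ := Submodule.mem_span_singleton.1 hb
      rw [mul_smul_comm, mul_one, map_smul, map_sub, (G.galois X).tr_act, map_smul, smul_eq_mul,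
        smul_eq_mul, sub_self, mul_zero]
    · have h0 : G.act X g c - (G.χ g : V.K) ^ X.dim • c ∈ V.gr X (2 * X.dim) :=
        Submodule.sub_mem _ ((G.galois X).gr_mem g _ _ hc) (Submodule.smul_mem _ _ hc)
      have h1 := V.mul_mem h0 hb
      rw [V.gr_eq_bot X _ (by omega)] at h1
      rw [(Submodule.mem_bot _).1 h1, map_zero]
  · intro a b ha hb; rw [mul_add, map_add, ha, hb, add_zero]

lemma tendsto_of_growth {a t : ℕ → ℕ} (h : ∀ N : ℕ, ∃ n₀ : ℕ, ∀ n ≥ n₀, N * a n ≤ t n) :
    Tendsto (fun n => (a n : ℝ) / t n) atTop (𝓝 0) := by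
  rw [Metric.tendsto_atTop]
  intro ε hε
  obtain ⟨N, hN⟩ := exists_nat_gt (1 / ε)
  obtain ⟨n₀, hn₀⟩ := h N
  refine ⟨n₀, fun n hn => ?_⟩
  have h1 := hn₀ n hn
  have h2 : (0 : ℝ) ≤ (a n : ℝ) / t n := by positivity
  rw [Real.dist_eq, sub_zero, abs_of_nonneg h2]
  rcases Nat.eq_zero_or_pos (t n) with h3 | h3
  · rw [h3, Nat.cast_zero, div_zero]; exact hε
  · have h4 : (0 : ℝ) < t n := by exact_mod_cast h3
    rw [div_lt_iff₀ h4]
    have h5 : (N : ℝ) * a n ≤ t n := by exact_mod_cast h1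
    have h6 : 1 < ε * N := by
      rw [div_lt_iff₀ hε] at hN
      linarith
    have h7 : (0 : ℝ) ≤ a n := Nat.cast_nonneg _
    rcases h7.eq_or_lt with h8 | h8
    · rw [← h8]; positivity
    · nlinarith [mul_lt_mul_of_pos_right h6 h8, mul_le_mul_of_nonneg_left h5 hε.le]

end Inter

section Base

variable {W : WeilCohomology.{u, 0} ops} {L : Type} [Field L] [Algebra W.K L] {X : 𝒱.Obj}

/-- The space spanned by a space of classes after extension of the coefficients. -/
noncomputable def spB (W : WeilCohomology.{u, 0} ops) (L : Type) [Field L] [Algebra W.K L]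
    {X : 𝒱.Obj} (U : Submodule W.K (W.H X)) : Submodule (baseW W L).K ((baseW W L).H X) :=
  Submodule.span _ (em W L '' (U : Set (W.H X)))

lemma spB_eq (U : Submodule W.K (W.H X)) :
    spB W L U = (U.baseChange L : Submodule L (L ⊗[W.K] W.H X)) := by
  apply le_antisymm
  · refine Submodule.span_le.2 ?_
    rintro _ ⟨c, hc, rfl⟩
    exact Submodule.tmul_mem_baseChange_of_mem _ hc
  · intro x hx
    refine base_induction (P := fun x : L ⊗[W.K] W.H X => (show (baseW W L).H X from x) ∈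
      spB W L U) ?_ ?_ ?_ hx
    · exact Submodule.zero_mem _
    · intro x y hx hy; exact Submodule.add_mem _ hx hy
    · intro l a ha
      have h := tmul_eq (W := W) (L := L) l a
      have h2 : em W L a ∈ spB W L U := Submodule.subset_span ⟨a, ha, rfl⟩
      have h3 := Submodule.smul_mem _ (show (baseW W L).K from l) h2
      rw [← h] at h3
      exact h3

lemma spB_finrank (U : Submodule W.K (W.H X)) :
    finrank (baseW W L).K (spB W L U) = finrank W.K U := by
  rw [spB_eq]
  have h1 : Function.Injective (U.subtype.baseChange L) :=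
    Module.Flat.lTensor_preserves_injective_linearMap (M := L) U.subtype U.subtype_injective
  have h2 : finrank L (LinearMap.range (U.subtype.baseChange L)) = finrank L (L ⊗[W.K] U) :=
    LinearMap.finrank_range_of_inj h1
  rw [Module.finrank_baseChange] at h2
  exact h2

/-- Nondegenerate spaces of classes remain nondegenerate. -/
lemma spB_nondeg {U : Submodule W.K (W.H X)}
    (hnd : ∀ x ∈ U, (∀ y ∈ U, W.tr X (x * y) = 0) → x = 0) {x : (baseW W L).H X}
    (hx : x ∈ spB W L U) (h : ∀ y ∈ spB W L U, (baseW W L).tr X (x * y) = 0) : x = 0 := by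
  classical
  rw [spB_eq] at hx
  have hx' : x ∈ LinearMap.range (U.subtype.baseChange L) := hx
  obtain ⟨z, hz⟩ := hx'
  let b := Basis.ofVectorSpace W.K L
  obtain ⟨f, hf⟩ := TensorProduct.eq_repr_basis_left b z
  have hx2 : x = ∑ i ∈ f.support, (show (baseW W L).K from b i) • em W L (f i : W.H X) := by
    rw [← hz, ← hf, Finsupp.sum, map_sum]
    refine Finset.sum_congr rfl fun i _ => ?_
    rw [LinearMap.baseChange_tmul]
    exact tmul_eq (W := W) (b i) (f i : W.H X)
  have h0 : ∀ i ∈ f.support, (f i : W.H X) = 0 := by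
    intro i hi
    refine hnd _ (f i).2 fun y hy => ?_
    have h1 := h (em W L y) (Submodule.subset_span ⟨y, hy, rfl⟩)
    rw [hx2, Finset.sum_mul, map_sum] at h1
    have h2 : ∑ i ∈ f.support, W.tr X ((f i : W.H X) * y) • b i = 0 := by
      refine Eq.trans (Finset.sum_congr rfl fun i _ => ?_) h1
      rw [smul_mul_assoc, ← em_mul, map_smul, em_tr, smul_eq_mul, mul_comm]
      exact Algebra.smul_def (W.tr X ((f i : W.H X) * y)) (b i)
    exact linearIndependent_iff'.1 b.linearIndependent f.support _ h2 i hi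
  rw [hx2]
  refine Finset.sum_eq_zero fun i hi => ?_
  rw [h0 i hi, em_zero, smul_zero]

end Base

end Pool.Agent.K1H13.Z
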