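import Pool.Agent.K1H13.Z.Law

/-!
# Zero-one laws for the comparison of Hodge classes and Tate classes: the main theorems
-/

open CategoryTheory AlgebraicGeometry TensorProduct Filter Topology

universe u v

namespace Pool.Agent.K1H13.Z

open Module
open Pool.Agent.H914 Pool.Agent.H914.VarClass Pool.Agent.H914.VarClass.Obj
  Pool.Agent.H914.WeilCohomology
open Pool.Agent.Y133.Half Pool.Agent.Y121.AH
open Pool.Agent.K1H13.L (GaloisAction act_inv push_act tateClasses tatePred)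

variable {k : Type u} [Field k] {𝒱 : VarClass k} {ops : CycleOps 𝒱} {T : HodgeTheory ops}
  {Λ : Type} [Field Λ] [Algebra T.W.K Λ] {Γ : Type} [Group Γ] {X Y Z : 𝒱.Obj}

lemma top_hodge [Nontrivial (T.W.H X)] {c : (baseW T.W Λ).H X}
    (hc : c ∈ (baseW T.W Λ).gr X (2 * X.dim)) : c ∈ hodgeSpan T Λ X X.dim := by
  obtain ⟨l, hl, hl1⟩ := exists_tr_hodge T X
  have h1 : (baseW T.W Λ).tr X (em T.W Λ l) = 1 := by
    rw [em_tr, hl1]; exact map_one (algebraMap T.W.K Λ)
  rw [top_eq (em_gr hl.1) h1 hc]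
  exact Submodule.smul_mem _ _ (hs_of hl)

lemma subsingleton_pw {V : WeilCohomology.{u, v} ops} (h : Subsingleton (V.H Y)) (n : ℕ) :
    Subsingleton (V.H (pw Y n)) := by
  have h1 : finrank V.K (V.H Y) = 0 := (Module.finrank_eq_zero_iff_of_free V.K (V.H Y)).2 h
  refine (Module.finrank_eq_zero_iff_of_free V.K (V.H (pw Y n))).1 ?_
  rw [finrank_pw, h1, zero_pow (by omega)]

lemma subsingleton_base (h : Subsingleton (T.W.H Y)) : Subsingleton ((baseW T.W Λ).H Y) := by
  have h1 : Subsingleton (Λ ⊗[T.W.K] T.W.H Y) := by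
    have h2 : finrank T.W.K (T.W.H Y) = 0 :=
      (Module.finrank_eq_zero_iff_of_free T.W.K (T.W.H Y)).2 h
    refine (Module.finrank_eq_zero_iff_of_free Λ (Λ ⊗[T.W.K] T.W.H Y)).1 ?_
    rw [Module.finrank_baseChange, h2]
  exact h1

/-- **The law for a class of classes and the Hodge classes.** -/
theorem law_hodge (hΛ : Nonempty (Λ →+* ℂ)) (Q : ClassPred (baseW T.W Λ))
    (htop : ∀ X : 𝒱.Obj, ∀ c ∈ (baseW T.W Λ).gr X (2 * X.dim), Q.P X X.dim c) (Y : 𝒱.Obj) :
    (∀ n j c, Q.P (pw Y n) j c → c ∈ hodgeSpan T Λ (pw Y n) j) ∨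
      ∀ N : ℕ, ∃ n₀ : ℕ, ∀ n ≥ n₀, N * (interPred (hodgePredL T Λ) Q).sys.a (pw Y n) ≤
        finrank (baseW T.W Λ).K (Q.sys.C (pw Y n)) := by
  rcases subsingleton_or_nontrivial (T.W.H Y) with hs | hn
  · left
    intro n j c _
    have := subsingleton_pw (V := baseW T.W Λ) (subsingleton_base (Λ := Λ) hs) n
    rw [Subsingleton.elim c 0]
    exact Submodule.zero_mem _
  obtain ⟨τ⟩ := hΛ
  obtain ⟨l, hl, hl1⟩ := exists_tr_hodge T Y
  have h1 : (baseW T.W Λ).tr Y (em T.W Λ l) = 1 := by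
    rw [em_tr, hl1]; exact map_one (algebraMap T.W.K Λ)
  have h2 : em T.W Λ l ∈ (interPred (hodgePredL T Λ) Q).sys.C Y :=
    ClassPred.sp_of (Q := interPred (hodgePredL T Λ) Q) (j := Y.dim)
      ⟨hs_of hl, htop Y _ (em_gr hl.1)⟩
  rcases growth_or (interPred (hodgePredL T Λ) Q).sys Q.sys (inter_le_right _ _) Y h2 h1 with
    ⟨m, P, hP, hG⟩ | h
  · left
    intro n j c hc
    exact hodge_of_genBy τ (inter_le_left _ _) hG (ClassPred.sp_of hc) (Q.gr hc)
  · exact Or.inr h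

/-- **The law for a class of classes and the Tate classes.** -/
theorem law_pot (G : GaloisAction (baseW T.W Λ) Γ) (Q : ClassPred (baseW T.W Λ)) (Y : 𝒱.Obj)
    (hY : Nontrivial (T.W.H Y) → ∃ l, Q.P Y Y.dim l ∧ (baseW T.W Λ).tr Y l = 1) :
    (∀ n j c, Q.P (pw Y n) j c → c ∈ potTate G (pw Y n) j) ∨
      ∀ N : ℕ, ∃ n₀ : ℕ, ∀ n ≥ n₀, N * (interPred Q (potPred G)).sys.a (pw Y n) ≤
        finrank (baseW T.W Λ).K (Q.sys.C (pw Y n)) := by
  rcases subsingleton_or_nontrivial (T.W.H Y) with hs | hn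
  · left
    intro n j c _
    have := subsingleton_pw (V := baseW T.W Λ) (subsingleton_base (Λ := Λ) hs) n
    rw [Subsingleton.elim c 0]
    exact Submodule.zero_mem _
  obtain ⟨l, hl, hl1⟩ := hY hn
  have h2 : l ∈ (interPred Q (potPred G)).sys.C Y :=
    ClassPred.sp_of (Q := interPred Q (potPred G)) (j := Y.dim)
      ⟨hl, Q.gr hl, ⊤, inferInstance, fun g _ => top_tate G (Q.gr hl) g⟩
  rcases growth_or (interPred Q (potPred G)).sys Q.sys (inter_le_left _ _) Y h2 hl1 with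
    ⟨m, P, hP, hG⟩ | h
  · left
    intro n j c hc
    exact pot_of_genBy (inter_le_right _ _) hP hG (ClassPred.sp_of hc) (Q.gr hc)
  · exact Or.inr h

section Rat

/-- The Hodge classes whose images with coefficients in `Λ` have a given property. -/
noncomputable def ratPred (Q : ClassPred (baseW T.W Λ)) : ClassPred T.W where
  P X j c := IsHodge T X j c ∧ Q.P X j (em T.W Λ c)
  gr h := h.1.1
  zero := ⟨IsHodge.zero, by rw [em_zero]; exact Q.zero⟩
  add ha hb := ⟨ha.1.add hb.1, by rw [em_add]; exact Q.add ha.2 hb.2⟩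
  smul r _ ha := ⟨ha.1.smul r, by rw [em_smul]; exact Q.smul _ ha.2⟩
  cl hz := ⟨IsHodge.cl hz, Q.cl hz⟩
  mul ha hb := ⟨ha.1.mul hb.1, by rw [em_mul]; exact Q.mul ha.2 hb.2⟩
  map f _ _ ha := ⟨ha.1.map f, by rw [← em_map]; exact Q.map f ha.2⟩
  push f _ _ hl _ ha := ⟨ha.1.push f hl, by rw [← em_push]; exact Q.push f hl ha.2⟩

/-- The property is inherited under injective multiplications. -/
def Divides (Q : ClassPred (baseW T.W Λ)) : Prop :=
  ∀ (X : 𝒱.Obj) (m j : ℕ) (w x : (baseW T.W Λ).H X), Q.P X m w →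
    x ∈ (baseW T.W Λ).gr X (2 * j) → Q.P X (m + j) (w * x) →
    (∀ z ∈ (baseW T.W Λ).gr X (2 * j), w * z = 0 → z = 0) → Q.P X j x

lemma divides_pot (G : GaloisAction (baseW T.W Λ) Γ) : Divides (potPred G) := by
  rintro X m j w x ⟨hw, H, hH, hwH⟩ hx ⟨hwx, H', hH', hwxH⟩ hinj
  refine ⟨hx, H ⊓ H', inferInstance, fun g hg => ?_⟩
  rw [← tw_fix_iff hx, ← sub_eq_zero]
  apply hinj _ (Submodule.sub_mem _ (tw_mem hx) hx)
  have h1 := (tw_fix_iff hw).2 (hwH g hg.1)
  have h2 := (tw_fix_iff hwx).2 (hwxH g hg.2)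
  rw [tw_mul (PH.of' (b := 0) (by omega) hw), h1] at h2
  rw [mul_sub, h2, sub_self]

lemma divides_tate (G : GaloisAction (baseW T.W Λ) Γ) : Divides (tatePred G) := by
  rintro X m j w x ⟨hw, hwH⟩ hx ⟨hwx, hwxH⟩ hinj
  refine ⟨hx, fun g => ?_⟩
  rw [← tw_fix_iff hx, ← sub_eq_zero]
  apply hinj _ (Submodule.sub_mem _ (tw_mem hx) hx)
  have h1 := (tw_fix_iff hw).2 (hwH g)
  have h2 := (tw_fix_iff hwx).2 (hwxH g)
  rw [tw_mul (PH.of' (b := 0) (by omega) hw), h1] at h2
  rw [mul_sub, h2, sub_self]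

lemma lifts_rat {Q : ClassPred (baseW T.W Λ)} (hQ : Divides Q) : Lifts T (ratPred Q) := by
  intro X D hD j hj v hv
  obtain ⟨hv, hvQ⟩ := hv
  obtain ⟨x, hx, hxv⟩ := lifts_hodge T X D hD j hj v hv
  refine ⟨x, ⟨hx, ?_⟩, hxv⟩
  have hw : (ratPred Q).P X (X.dim - 2 * j) (T.W.cl X D ^ (X.dim - 2 * j)) := by
    have := q_pow (Q := ratPred Q) ((ratPred Q).cl hD.1) (X.dim - 2 * j)
    rwa [one_mul] at this
  refine hQ X (X.dim - 2 * j) j _ _ hw.2 (em_gr hx.1) ?_ fun z hz h => ?_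
  · rw [← em_mul, hxv, show X.dim - 2 * j + j = X.dim - j by omega]
    exact hvQ
  · exact mul_inj_base (fun y hy h => hl_inj hD.2.1 hj hy h) hz h

/-- The Hodge classes with the property `Q` contribute to the rank of the intersection form. -/
lemma rat_le_a {Q : ClassPred (baseW T.W Λ)} (hQ : Divides Q) (X : 𝒱.Obj) :
    finrank T.W.K ((ratPred Q).sys.C X) ≤ (interPred (hodgePredL T Λ) Q).sys.a X := by
  rw [← spB_finrank (W := T.W) (L := Λ)]
  apply le_a
  · refine Submodule.span_le.2 ?_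
    rintro _ ⟨c, hc, rfl⟩
    have hc' : c ∈ (ratPred Q).sp X := hc
    refine ClassPred.sp_ind (Q := ratPred Q)
      (q := fun c => em T.W Λ c ∈ (interPred (hodgePredL T Λ) Q).sys.C X) ?_ ?_ ?_ hc'
    · intro j x hx
      exact ClassPred.sp_of (Q := interPred (hodgePredL T Λ) Q) (j := j) ⟨hs_of hx.1, hx.2⟩
    · rw [em_zero]; exact Submodule.zero_mem _
    · intro a b ha hb; rw [em_add]; exact Submodule.add_mem _ ha hb
  · intro x hx h
    refine spB_nondeg (U := (ratPred Q).sys.C X) (fun x hx h => ?_) hx h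
    exact q_nondeg_sys (Q := ratPred Q) (fun h => h.1) (lifts_rat hQ) hx h

lemma hodge_sp_eq (X : 𝒱.Obj) :
    (hodgePredL T Λ).sys.C X = spB T.W Λ ((hodgeSys T).C X) := by
  apply le_antisymm
  · intro x hx
    refine ClassPred.sp_ind (Q := hodgePredL T Λ)
      (q := fun x => x ∈ spB T.W Λ ((hodgeSys T).C X)) ?_ ?_ ?_ hx
    · intro j x hx
      refine hs_ind (q := fun x => x ∈ spB T.W Λ ((hodgeSys T).C X)) ?_ ?_ ?_ ?_ hx
      · intro c hc
        exact Submodule.subset_span ⟨c, ClassPred.sp_of (Q := hodgePred T) hc, rfl⟩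
      · exact Submodule.zero_mem _
      · intro a b ha hb; exact Submodule.add_mem _ ha hb
      · intro r a ha; exact Submodule.smul_mem _ _ ha
    · exact Submodule.zero_mem _
    · intro a b ha hb; exact Submodule.add_mem _ ha hb
  · refine Submodule.span_le.2 ?_
    rintro _ ⟨c, hc, rfl⟩
    have hc' : c ∈ (hodgePred T).sp X := hc
    refine ClassPred.sp_ind (Q := hodgePred T)
      (q := fun c => em T.W Λ c ∈ (hodgePredL T Λ).sys.C X) ?_ ?_ ?_ hc'
    · intro j x hx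
      exact ClassPred.sp_of (Q := hodgePredL T Λ) (j := j) (hs_of hx)
    · rw [em_zero]; exact Submodule.zero_mem _
    · intro a b ha hb; rw [em_add]; exact Submodule.add_mem _ ha hb

lemma hodge_finrank (X : 𝒱.Obj) :
    finrank (baseW T.W Λ).K ((hodgePredL T Λ).sys.C X) = hodgeDim T X := by
  rw [hodge_sp_eq, spB_finrank, hodgeDim_eq]

/-- The intersection form on the linear combinations of Hodge classes is nondegenerate. -/
lemma hodge_a (X : 𝒱.Obj) : (hodgePredL T Λ).sys.a X = hodgeDim T X := by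
  apply le_antisymm
  · have h := (hodgePredL T Λ).sys.a_add_num X
    rw [hodge_finrank] at h
    omega
  · rw [← hodge_finrank (Λ := Λ)]
    apply le_a _ le_rfl
    intro x hx h
    rw [hodge_sp_eq] at hx h
    exact spB_nondeg (fun x hx h => hodge_nondeg hx h) hx h

end Rat

end Pool.Agent.K1H13.Z
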