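import Pool.Agent.K1H13.Z.MixConv

/-!
# The zero-one law for the conjecture of Mumford and Tate
-/

open CategoryTheory AlgebraicGeometry TensorProduct Filter Topology

universe u

namespace Pool.Agent.K1H13.Z

open Module
open Pool.Agent.H914 Pool.Agent.H914.VarClass Pool.Agent.H914.VarClass.Obj
  Pool.Agent.H914.WeilCohomology
open Pool.Agent.Y121.AH (HodgeTheory IsHodge hodgePred hodgeDim hodgeSys hodgeDim_eq
  exists_tr_hodge em_tr)
open Pool.Agent.Y133.Half (pw Sys ClassPred algDim_eq algDim)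
open Pool.Agent.K1H13.L (GaloisAction)

variable {k : Type u} [Field k] {𝒱 : VarClass k} {ops : CycleOps 𝒱}

lemma formRk_eq {V : WeilCohomology.{u, 0} ops} (S : Sys V) (X : 𝒱.Obj) :
    formRk (V.tr X) (S.C X) = S.a X := rfl

lemma iSup_span {V : WeilCohomology.{u, 0} ops} (Q : ClassPred V) (X : 𝒱.Obj)
    (M : ℕ → Submodule V.K (V.H X)) (h : ∀ j c, c ∈ M j ↔ Q.P X j c) :
    (⨆ j, M j) = Q.sys.C X := by
  apply le_antisymm
  · refine iSup_le fun j c hc => ?_
    exact ClassPred.sp_of ((h j c).1 hc)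
  · refine Submodule.span_le.2 ?_
    rintro c ⟨j, hj⟩
    exact Submodule.mem_iSup_of_mem j ((h j c).2 hj)

lemma totDim_eq {V : WeilCohomology.{u, 0} ops} (Q : ClassPred V) (X : 𝒱.Obj)
    (M : ℕ → Submodule V.K (V.H X)) (h : ∀ j c, c ∈ M j ↔ Q.P X j c) :
    totDim M = finrank V.K (Q.sys.C X) := by
  rw [totDim, iSup_span Q X M h]

lemma totRk_eq {V : WeilCohomology.{u, 0} ops} (Q : ClassPred V) (X : 𝒱.Obj)
    (M N : ℕ → Submodule V.K (V.H X)) (h : ∀ j c, c ∈ M j ⊓ N j ↔ Q.P X j c) :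
    totRk (V.tr X) M N = Q.sys.a X := by
  rw [totRk, iSup_span Q X (fun j => M j ⊓ N j) h, formRk_eq]

variable (H : HodgeTate ops) (X : 𝒱.Obj)

lemma totDim_pm (M : ℕ → Submodule H.U.K (H.U.H X)) :
    totDim (fun j => pm H X (M j)) = totDim M :=
  totDim_map (phi₀ H X) M

lemma totRk_pm (M N : ℕ → Submodule H.U.K (H.U.H X)) :
    totRk (H.G.V.tr X) (fun j => pm H X (M j)) (fun j => pm H X (N j)) =
      totRk (H.U.tr X) M N := by
  have h1 := totRk_map (phi₀ H X) (H.G.V.tr X) M N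
  have h2 : H.G.V.tr X ∘ₗ (phi₀ H X).toLinearMap = H.U.tr X := by
    apply LinearMap.ext
    intro x
    exact phi_tr (H := H) (X := X) x
  rw [h2] at h1
  exact h1

lemma hdg_fun : H.hdg X = fun j => pm H X (hodgeSpan H.T H.Λ X j) := funext fun j => hdg_map j

lemma tate_fun : H.tate X = fun j => pm H X (potTate H.G' X j) := funext fun j => tate_map j

lemma hdgDim_eq' : H.hdgDim X = finrank H.U.K ((hodgePredL H.T H.Λ).sys.C X) := by
  rw [HodgeTate.hdgDim, hdg_fun, totDim_pm]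
  exact totDim_eq (hodgePredL H.T H.Λ) X _ fun j c => Iff.rfl

lemma hdgDim_eq : H.hdgDim X = hodgeDim H.T X := by
  rw [hdgDim_eq', hodge_finrank]

lemma tateDim_eq' : H.tateDim X = finrank H.U.K ((potPred H.G').sys.C X) := by
  rw [HodgeTate.tateDim, tate_fun, totDim_pm]
  exact totDim_eq (potPred H.G') X _ fun j c => Iff.rfl

lemma commonRank_eq : H.commonRank X =
    (interPred (hodgePredL H.T H.Λ) (potPred H.G')).sys.a X := by
  rw [HodgeTate.commonRank, hdg_fun, tate_fun, totRk_pm]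
  exact totRk_eq (interPred (hodgePredL H.T H.Λ) (potPred H.G')) X _ _ fun j c => Iff.rfl

lemma dim_le_sum : H.hdgDim X ≤ H.sumDim X ∧ H.tateDim X ≤ H.sumDim X :=
  ⟨Submodule.finrank_mono (iSup_mono fun _ => le_sup_left),
    Submodule.finrank_mono (iSup_mono fun _ => le_sup_right)⟩

lemma rationalDim_eq : H.rationalDim X = finrank H.T.W.K
    ((ratPred (T := H.T) (Λ := H.Λ) (potPred H.G')).sys.C X) := by
  have h1 : {c | ∃ j, c ∈ hodgeCl (H.B.W.gr X) (H.B.pq X) j ∧ H.cmp.e X c ∈ H.tate X j} =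
      {c | ∃ j, (ratPred (T := H.T) (Λ := H.Λ) (potPred H.G')).P X j c} := by
    ext c
    have key : ∀ j, H.cmp.e X c ∈ H.tate X j ↔
        Pool.Agent.Y121.AH.em H.T.W H.Λ c ∈ potTate H.G' X j := by
      intro j
      rw [tate_map, mem_pm]
      constructor
      · rintro ⟨d, hd, hdc⟩
        have h2 : d = Pool.Agent.Y121.AH.em H.T.W H.Λ c :=
          (phi H X).injective (hdc.trans (phi_em c).symm)
        rwa [h2] at hd
      · intro h
        exact ⟨_, h, phi_em c⟩
    constructor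
    · rintro ⟨j, h1, h2⟩
      exact ⟨j, h1, (key j).1 h2⟩
    · rintro ⟨j, h1, h2⟩
      exact ⟨j, h1, (key j).2 h2⟩
  rw [HodgeTate.rationalDim, pullDim, h1]
  rfl

lemma cycleDim_eq : H.cycleDim X = algDim H.T.W X := by
  have h1 : (⋃ j, cycles H.B.W X j) = Pool.Agent.Y133.Half.algSet H.T.W X := by
    ext c
    simp only [Set.mem_iUnion]
    exact Iff.rfl
  rw [HodgeTate.cycleDim, h1]
  rfl

lemma dim_chain : H.cycleDim X ≤ H.rationalDim X ∧ H.rationalDim X ≤ H.commonRank X := by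
  rw [rationalDim_eq, commonRank_eq, cycleDim_eq]
  constructor
  · rw [algDim_eq]
    exact Submodule.finrank_mono (ClassPred.alg_le
      (Q := ratPred (T := H.T) (Λ := H.Λ) (potPred H.G')))
  · exact rat_le_a (T := H.T) (divides_pot H.G') X

lemma pm_mono {M N : Submodule H.U.K (H.U.H X)} (h : M ≤ N) : pm H X M ≤ pm H X N :=
  Submodule.map_mono h

/-- The law for the inclusion of the Hodge classes in the Tate classes. -/
lemma law_H (Y : 𝒱.Obj) : H.HodgeAreTate Y ∨
    ∀ N : ℕ, ∃ n₀ : ℕ, ∀ n ≥ n₀, N * H.commonRank (pw Y n) ≤ H.hdgDim (pw Y n) := by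
  have h := law_pot (T := H.T) H.G' (hodgePredL H.T H.Λ) Y (fun hn => by
    obtain ⟨l, hl, hl1⟩ := exists_tr_hodge H.T Y
    refine ⟨Pool.Agent.Y121.AH.em H.T.W H.Λ l, hs_of hl, ?_⟩
    rw [em_tr, hl1]; exact map_one (algebraMap H.T.W.K H.Λ))
  rcases h with h | h
  · left
    intro n j
    rw [hdg_map, tate_map]
    exact pm_mono H _ fun c hc => h n j c hc
  · right
    intro N
    obtain ⟨n₀, hn₀⟩ := h N
    refine ⟨n₀, fun n hn => ?_⟩
    have h1 := hn₀ n hn
    rw [commonRank_eq, hdgDim_eq']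
    exact h1

/-- The law for the inclusion of the Tate classes in the Hodge classes. -/
lemma law_T (Y : 𝒱.Obj) : H.TateAreHodge Y ∨
    ∀ N : ℕ, ∃ n₀ : ℕ, ∀ n ≥ n₀, N * H.commonRank (pw Y n) ≤ H.tateDim (pw Y n) := by
  have h := law_hodge (T := H.T) (Λ := H.Λ) H.emb (potPred H.G')
    (fun X c hc => ⟨hc, ⊤, inferInstance, fun g _ => top_tate H.G' hc g⟩) Y
  rcases h with h | h
  · left
    intro n j
    rw [hdg_map, tate_map]
    exact pm_mono H _ fun c hc => h n j c hc
  · right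
    intro N
    obtain ⟨n₀, hn₀⟩ := h N
    refine ⟨n₀, fun n hn => ?_⟩
    have h1 := hn₀ n hn
    rw [commonRank_eq, tateDim_eq']
    exact h1

lemma common_of_le (h : ∀ j, H.hdg X j ≤ H.tate X j) : H.commonRank X = H.hdgDim X := by
  have h0 : ∀ j, hodgeSpan H.T H.Λ X j ≤ potTate H.G' X j := by
    intro j c hc
    have h1 := h j
    rw [hdg_map, tate_map] at h1
    obtain ⟨d, hd, hdc⟩ := mem_pm.1 (h1 (mem_pm.2 ⟨c, hc, rfl⟩))
    rwa [(phi H X).injective hdc] at hd
  have h2 : H.commonRank X = (hodgePredL H.T H.Λ).sys.a X := by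
    rw [HodgeTate.commonRank, hdg_fun, tate_fun, totRk_pm]
    refine totRk_eq (hodgePredL H.T H.Λ) X _ _ fun j c => ?_
    exact ⟨fun hc => hc.1, fun hc => ⟨hc, h0 j hc⟩⟩
  rw [h2, hodge_a, hdgDim_eq]

lemma of_eq (h : ∀ j, H.hdg X j = H.tate X j) : H.commonRank X = H.sumDim X ∧
    H.hdgDim X = H.tateDim X := by
  have h0 : H.hdg X = H.tate X := funext h
  constructor
  · rw [common_of_le H X fun j => (h j).le, HodgeTate.sumDim, ← h0, totDim₂, HodgeTate.hdgDim]
    congr 1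
    funext j
    exact (sup_idem _).symm
  · rw [HodgeTate.tateDim, HodgeTate.hdgDim, h0]

/-- **The zero-one law.** -/
theorem mt_law (Y : 𝒱.Obj) :
    ((H.MumfordTate Y ∧ ∀ n, H.commonRank (pw Y n) = H.sumDim (pw Y n)) ∨
      Negligible (fun n => H.commonRank (pw Y n)) fun n => H.sumDim (pw Y n)) ∧
    (H.HodgeAreTate Y ∨ Negligible (fun n => H.commonRank (pw Y n)) fun n => H.hdgDim (pw Y n)) ∧
    (H.TateAreHodge Y ∨ Negligible (fun n => H.commonRank (pw Y n)) fun n => H.tateDim (pw Y n)) ∧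
    (H.HodgeAreTate Y →
      ((H.MumfordTate Y ∧ ∀ n, H.hdgDim (pw Y n) = H.tateDim (pw Y n)) ∨
        Negligible (fun n => H.hdgDim (pw Y n)) fun n => H.tateDim (pw Y n))) ∧
    (∀ n, H.cycleDim (pw Y n) ≤ H.rationalDim (pw Y n) ∧
      H.rationalDim (pw Y n) ≤ H.commonRank (pw Y n)) := by
  refine ⟨?_, ?_, ?_, ?_, fun n => dim_chain H _⟩
  · rcases law_H H Y with h1 | h1
    · rcases law_T H Y with h2 | h2
      · left
        have h3 : H.MumfordTate Y := fun n j => le_antisymm (h1 n j) (h2 n j)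
        exact ⟨h3, fun n => (of_eq H _ (h3 n)).1⟩
      · right
        refine tendsto_of_growth fun N => ?_
        obtain ⟨n₀, hn₀⟩ := h2 N
        exact ⟨n₀, fun n hn => (hn₀ n hn).trans (dim_le_sum H _).2⟩
    · right
      refine tendsto_of_growth fun N => ?_
      obtain ⟨n₀, hn₀⟩ := h1 N
      exact ⟨n₀, fun n hn => (hn₀ n hn).trans (dim_le_sum H _).1⟩
  · rcases law_H H Y with h | h
    · exact Or.inl h
    · exact Or.inr (tendsto_of_growth h)
  · rcases law_T H Y with h | h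
    · exact Or.inl h
    · exact Or.inr (tendsto_of_growth h)
  · intro hyp
    rcases law_T H Y with h | h
    · left
      have h3 : H.MumfordTate Y := fun n j => le_antisymm (hyp n j) (h n j)
      exact ⟨h3, fun n => (of_eq H _ (h3 n)).2⟩
    · right
      refine tendsto_of_growth fun N => ?_
      obtain ⟨n₀, hn₀⟩ := h N
      refine ⟨n₀, fun n hn => ?_⟩
      rw [← common_of_le H _ (hyp n)]
      exact hn₀ n hn

end Pool.Agent.K1H13.Z
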