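import Pool.Agent.K1H13.Z.MixAlg
import Pool.Agent.K1H13.Z.Law2

/-!
# Conversion of the definitions
-/

open CategoryTheory AlgebraicGeometry TensorProduct

universe u

namespace Pool.Agent.K1H13.Z

open Module
open Pool.Agent.H914 Pool.Agent.H914.VarClass Pool.Agent.H914.VarClass.Obj
  Pool.Agent.H914.WeilCohomology
open Pool.Agent.Y121.AH (HodgeTheory IsHodge em em_tr em_gr)
open Pool.Agent.Y133.Half (dimOf pw)
open Pool.Agent.K1H13.L (GaloisAction tateClasses)

variable {k : Type u} [Field k] {𝒱 : VarClass k} {ops : CycleOps 𝒱} (H : HodgeTate ops)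

/-- The Hodge theory. -/
noncomputable def HodgeTate.T : HodgeTheory ops where
  W := H.B.W
  rat := H.B.rat
  alg := H.B.algC
  pq := fun X a b => (H.B.pq X a b : Submodule ℂ (ℂ ⊗[H.B.W.K] H.B.W.H X))
  dec :=
    { span := fun {X i c} hc => (H.B.hodge X).span i c hc
      le := fun X {p q i} h => (H.B.hodge X).le p q i h
      indep := fun X => (H.B.hodge X).indep
      mul := fun {X p q r s a b} ha hb => (H.B.hodge X).mul p q r s a ha b hb
      map := fun {X Y} f {p q b} hb => (H.B.hodge_map f p q).1 b hb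
      push := fun {X Y} f {p q a} ha => by
        have h := (H.B.hodge_map f p q).2 a ha
        rw [← add_sub_assoc, ← add_sub_assoc] at h
        exact h
      cyc := fun {X j z} hz => (H.B.hodge X).cyc j _ ⟨z, hz, rfl⟩
      polar := fun X => by
        obtain ⟨_, ⟨z, hz, rfl⟩, hHL, hHR⟩ := (H.B.hodge X).polar
        refine ⟨z, hz, ?_, hHR⟩
        intro i hi
        obtain ⟨h1, h2⟩ := hHL i hi
        refine ⟨fun a ha h => h1 a ha ?_, fun b hb => ?_⟩
        · rw [← LinearMap.mulLeft_apply (R := H.B.W.K), ← LinearMap.pow_mulLeft]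
          exact h
        · obtain ⟨a, ha, hab⟩ := h2 b hb
          refine ⟨a, ha, ?_⟩
          rw [LinearMap.pow_mulLeft, LinearMap.mulLeft_apply]
          exact hab }

/-- The `ℓ`-adic coefficients. -/
abbrev HodgeTate.Λ : Type := H.G.V.K

noncomputable instance instAlgΛ : Algebra H.B.W.K H.Λ := H.cmp.s.toAlgebra

noncomputable instance instAlgΛ' : Algebra H.T.W.K H.Λ := H.cmp.s.toAlgebra

/-- The cohomology `Λ ⊗ W`. -/
noncomputable abbrev HodgeTate.U : WeilCohomology.{u, 0} ops := baseW H.T.W H.Λ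

/-- The comparison isomorphism. -/
noncomputable def phi₀ (X : 𝒱.Obj) : (H.Λ ⊗[H.B.W.K] H.B.W.H X) ≃ₐ[H.Λ] H.G.V.H X :=
  AlgEquiv.ofBijective (extHom (A := H.B.W.H X) (A' := H.G.V.H X) H.cmp.s (fun _ => rfl)
    (H.cmp.e X) (H.cmp.cmp X).smul)
    (by
      have h1 : Module.Finite H.B.W.K (H.B.W.H X) := H.B.W.finite X
      have h2 : Module.Finite H.Λ (H.G.V.H X) := H.G.V.finite X
      exact extHom_bijective (A := H.B.W.H X) (A' := H.G.V.H X) H.cmp.s (fun _ => rfl)
        (H.cmp.e X) (H.cmp.cmp X).smul (H.cmp.cmp X).span (H.cmp.cmp X).rank)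

lemma phi₀_tmul (X : 𝒱.Obj) (l : H.Λ) (a : H.B.W.H X) :
    phi₀ H X (l ⊗ₜ[H.B.W.K] a) = l • H.cmp.e X a :=
  extHom_tmul (A := H.B.W.H X) (A' := H.G.V.H X) H.cmp.s (fun _ => rfl) (H.cmp.e X)
    (H.cmp.cmp X).smul l a

/-- The comparison isomorphism. -/
noncomputable def phi (X : 𝒱.Obj) : H.U.H X ≃+* H.G.V.H X := (phi₀ H X).toRingEquiv

variable {H} {X Y : 𝒱.Obj}

lemma phi_smul (l : H.U.K) (x : H.U.H X) : phi H X (l • x) = (show H.G.V.K from l) • phi H X x :=
  map_smul (phi₀ H X) (show H.Λ from l) (show H.Λ ⊗[H.B.W.K] H.B.W.H X from x)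

lemma phi_em (a : H.T.W.H X) : phi H X (em H.T.W H.Λ a) = H.cmp.e X a := by
  have h := phi₀_tmul H X (1 : H.Λ) a
  rw [one_smul] at h
  exact h

lemma U_ind {p : H.U.H X → Prop} (h0 : p 0) (hadd : ∀ x y, p x → p y → p (x + y))
    (h : ∀ (l : H.U.K) (a : H.T.W.H X), p (l • em H.T.W H.Λ a)) (x : H.U.H X) : p x :=
  Pool.Agent.Y121.AH.tmul_ind h0 hadd (fun l a => by
    rw [Pool.Agent.Y121.AH.tmul_eq]; exact h l a) x

lemma phi_map (f : X ⟶ Y) (y : H.U.H Y) :
    phi H X (H.U.map f y) = H.G.V.map f (phi H Y y) := by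
  refine U_ind (p := fun y => phi H X (H.U.map f y) = H.G.V.map f (phi H Y y)) ?_ ?_ ?_ y
  · simp only [map_zero]
  · intro a b ha hb; simp only [map_add, ha, hb]
  · intro l a
    rw [map_smul, phi_smul, phi_smul, Pool.Agent.Y121.AH.em_map, phi_em, phi_em, map_smul]
    congr 1
    exact (H.cmp.nat f) a

lemma phi_tr (x : H.U.H X) : H.G.V.tr X (phi H X x) = (show H.G.V.K from H.U.tr X x) := by
  refine U_ind (p := fun x => H.G.V.tr X (phi H X x) = (show H.G.V.K from H.U.tr X x)) ?_ ?_ ?_ x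
  · rw [map_zero, map_zero, map_zero]; rfl
  · intro a b ha hb
    rw [map_add, map_add, ha, hb, map_add]; rfl
  · intro l a
    rw [phi_smul, phi_em, map_smul, map_smul, em_tr]
    have h1 := (H.cmp.cmp X).tr_eq a
    rw [h1]
    rfl

lemma phi_gr' {i : ℕ} {x : H.U.H X} (hx : x ∈ H.U.gr X i) : phi H X x ∈ H.G.V.gr X i := by
  have hx' : x ∈ (H.T.W.gr X i).baseChange H.Λ := hx
  refine base_induction (P := fun x : H.Λ ⊗[H.T.W.K] H.T.W.H X => phi H X x ∈ H.G.V.gr X i)
    ?_ ?_ ?_ hx'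
  · exact (map_zero (phi H X)).symm ▸ Submodule.zero_mem _
  · intro x y hx hy
    exact (map_add (phi H X) x y).symm ▸ Submodule.add_mem _ hx hy
  · intro l a ha
    have h := Pool.Agent.Y121.AH.tmul_eq (W := H.T.W) (L := H.Λ) l a
    have h2 : phi H X (show H.U.H X from (l ⊗ₜ[H.T.W.K] a)) ∈ H.G.V.gr X i := by
      rw [h, phi_smul, phi_em]
      exact Submodule.smul_mem _ _ ((H.cmp.cmp X).gr_mem i a ha)
    exact h2

lemma phi_proj (i : ℕ) (x : H.U.H X) :
    phi H X (H914.proj (H.U.isInternal X) i x) = H914.proj (H.G.V.isInternal X) i (phi H X x) := by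
  refine gr_induction (H.U.isInternal X) (p := fun x =>
    phi H X (H914.proj (H.U.isInternal X) i x) =
      H914.proj (H.G.V.isInternal X) i (phi H X x)) ?_ ?_ x
  · intro l a ha
    have hb : phi H X a ∈ H.G.V.gr X l := phi_gr' ha
    by_cases hli : l = i
    · subst hli
      rw [proj_same _ ha, proj_same _ hb]
    · rw [proj_ne _ ha hli, proj_ne _ hb hli, map_zero]
  · intro a b ha hb
    rw [map_add, map_add, ha, hb, map_add, map_add]

lemma phi_gr {i : ℕ} {x : H.U.H X} : phi H X x ∈ H.G.V.gr X i ↔ x ∈ H.U.gr X i := by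
  refine ⟨fun h => ?_, fun h => phi_gr' h⟩
  have h1 := phi_proj (H := H) i x
  rw [proj_same _ h] at h1
  have h2 : H914.proj (H.U.isInternal X) i x = x := (phi H X).injective h1
  rw [← h2]
  exact H914.proj_mem _ _ _

variable (H) in
/-- The action of the Galois group. -/
noncomputable def actU (X : 𝒱.Obj) : H.G.Γ →* (H.U.H X ≃ₐ[H.U.K] H.U.H X) :=
  (AlgEquiv.autCongr (phi₀ H X).symm).toMonoidHom.comp (H.G.act X)

lemma phi_act (g : H.G.Γ) (x : H.U.H X) :
    phi H X (actU H X g x) = H.G.act X g (phi H X x) :=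
  (phi₀ H X).apply_symm_apply _

lemma tr_act_gen {V : WeilCohomology.{u, 0} ops} {X : 𝒱.Obj} (F : V.H X →ₗ[V.K] V.H X) (t : V.K)
    (h1 : ∀ i, ∀ a ∈ V.gr X i, F a ∈ V.gr X i) (h2 : ∀ a ∈ V.gr X (2 * X.dim), F a = t • a)
    (a : V.H X) : V.tr X (F a) = t * V.tr X a := by
  refine gr_induction (V.isInternal X) (p := fun a => V.tr X (F a) = t * V.tr X a) ?_ ?_ a
  · intro i a ha
    by_cases hi : i = 2 * X.dim
    · subst hi
      rw [h2 a ha, map_smul, smul_eq_mul]
    · rw [V.tr_eq_zero ha hi, mul_zero]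
      exact V.tr_eq_zero (h1 i a ha) hi
  · intro a b ha hb
    rw [map_add, map_add, ha, hb, map_add, mul_add]

variable (H) in
/-- The action of the Galois group on the cohomology `Λ ⊗ W`. -/
noncomputable def HodgeTate.G' : GaloisAction H.U H.G.Γ where
  χ := H.G.χ
  act X := actU H X
  galois X :=
    { gr_mem := fun g i a ha => by
        have h1 : phi H X (actU H X g a) ∈ H.G.V.gr X i := by
          rw [phi_act]
          exact (H.G.galois X).gr_mem g i _ (phi_gr.2 ha)
        exact phi_gr.1 h1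
      tr_act := fun g a => by
        have h1 := tr_act_gen (V := H.G.V) (H.G.act X g).toLinearMap
          ((H.G.χ g : H.G.V.K) ^ X.dim) (fun i a ha => (H.G.galois X).gr_mem g i a ha)
          (fun a ha => (H.G.galois X).top g a ha) (phi H X a)
        have h2 : H.G.V.tr X (phi H X (actU H X g a)) =
            (H.G.χ g : H.G.V.K) ^ X.dim * H.G.V.tr X (phi H X a) := by
          rw [phi_act]
          exact h1
        rw [phi_tr, phi_tr] at h2
        exact h2
      cl_act := by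
        rintro g j _ ⟨z, hz, rfl⟩
        have h1 : phi H X (H.U.cl X z) = H.G.V.cl X z :=
          (phi_em (H := H) (H.B.W.cl X z)).trans (H.cmp.cyc X z)
        apply (phi H X).injective
        rw [phi_act, h1, phi_smul, h1]
        exact (H.G.galois X).cyc g j _ ⟨z, hz, rfl⟩ }
  map {X Y} f := fun g a => by
    apply (phi H X).injective
    rw [phi_act, phi_map, phi_map, phi_act]
    exact H.G.galois_map f g _

variable (H X) (j : ℕ)

/-- The image of a subspace under the comparison isomorphism. -/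
noncomputable def pm (M : Submodule H.U.K (H.U.H X)) : Sub H.G.V.K (H.G.V.H X) :=
  Submodule.map (phi₀ H X).toLinearMap M

variable {H X}

lemma mem_pm {M : Submodule H.U.K (H.U.H X)} {d : H.G.V.H X} :
    d ∈ pm H X M ↔ ∃ c ∈ M, phi H X c = d := Iff.rfl

lemma pm_span (s : Set (H.U.H X)) : pm H X (Submodule.span H.U.K s) =
    Submodule.span H.G.V.K (phi H X '' s) :=
  Submodule.map_span (phi₀ H X).toLinearMap s

lemma hdg_map : H.hdg X j = pm H X (hodgeSpan H.T H.Λ X j) := by
  rw [hodgeSpan, pm_span, HodgeTate.hdg]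
  congr 1
  ext d
  constructor
  · rintro ⟨c, hc, rfl⟩
    exact ⟨_, ⟨c, hc, rfl⟩, phi_em c⟩
  · rintro ⟨_, ⟨c, hc, rfl⟩, rfl⟩
    exact ⟨c, hc, (phi_em c).symm⟩

lemma tate_map : H.tate X j = pm H X (potTate H.G' X j) := by
  apply le_antisymm
  · refine Submodule.span_le.2 ?_
    rintro d ⟨hd, S, hS, hdS⟩
    obtain ⟨c, rfl⟩ := (phi H X).surjective d
    refine ⟨c, ⟨phi_gr.1 hd, S, hS, fun g hg => ?_⟩, rfl⟩
    apply (phi H X).injective
    have h1 : phi H X (H.G'.act X g c) = H.G.act X g (phi H X c) := phi_act g c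
    rw [h1, phi_smul]
    exact hdS g hg
  · intro d hd
    obtain ⟨c, ⟨hc, S, hS, hcS⟩, rfl⟩ := mem_pm.1 hd
    refine Submodule.subset_span ⟨phi_gr.2 hc, S, hS, fun g hg => ?_⟩
    have h1 := congrArg (phi H X) (hcS g hg)
    have h2 : phi H X (H.G'.act X g c) = H.G.act X g (phi H X c) := phi_act g c
    rw [h2, phi_smul] at h1
    exact h1

end Pool.Agent.K1H13.Z
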