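import Pool.Agent.Y121.AH.Fix

/-!
# Operators of finite order
-/

open CategoryTheory AlgebraicGeometry

universe u v

namespace Pool.Agent.K1H13.Z

open Module
open Pool.Agent.H914 Pool.Agent.H914.VarClass Pool.Agent.H914.VarClass.Obj
  Pool.Agent.H914.WeilCohomology
open Pool.Agent.Y133.Half Pool.Agent.Y121.AH

lemma vander {K : Type*} [Field K] {μ : Polynomial K} (hμ : μ.Monic) {ξ : ℕ → K}
    (hdist : ∀ i < μ.natDegree, ξ i ≠ ξ μ.natDegree) (hne : ξ μ.natDegree ≠ 0)
    (h : ∀ m : ℕ, ∑ i ∈ Finset.range (μ.natDegree + 1), μ.coeff i * ξ i ^ (m + 1) = 0) :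
    False := by
  have h1 : ∀ q : Polynomial K, ∑ i ∈ Finset.range (μ.natDegree + 1),
      μ.coeff i * (ξ i * q.eval (ξ i)) = 0 := by
    intro q
    induction q using Polynomial.induction_on' with
    | add p q hp hq =>
      simp only [Polynomial.eval_add, mul_add, Finset.sum_add_distrib, hp, hq, add_zero]
    | monomial m a =>
      have h2 := congrArg (fun t => a * t) (h m)
      simp only [mul_zero, Finset.mul_sum] at h2
      rw [← h2]
      refine Finset.sum_congr rfl fun i _ => ?_
      rw [Polynomial.eval_monomial]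
      ring
  set q : Polynomial K := ∏ i ∈ Finset.range μ.natDegree, (Polynomial.X - Polynomial.C (ξ i))
    with hq
  have h2 := h1 q
  rw [Finset.sum_range_succ, hμ.coeff_natDegree, one_mul] at h2
  have h3 : ∑ i ∈ Finset.range μ.natDegree, μ.coeff i * (ξ i * q.eval (ξ i)) = 0 := by
    refine Finset.sum_eq_zero fun i hi => ?_
    have h4 : q.eval (ξ i) = 0 := by
      rw [hq, Polynomial.eval_prod]
      exact Finset.prod_eq_zero hi (by simp)
    rw [h4, mul_zero, mul_zero]
  rw [h3, zero_add] at h2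
  rcases mul_eq_zero.1 h2 with h4 | h4
  · exact hne h4
  · rw [hq, Polynomial.eval_prod, Finset.prod_eq_zero_iff] at h4
    obtain ⟨i, hi, h5⟩ := h4
    simp only [Polynomial.eval_sub, Polynomial.eval_X, Polynomial.eval_C] at h5
    exact hdist i (Finset.mem_range.1 hi) (sub_eq_zero.1 h5).symm

variable {k : Type u} [Field k] {𝒱 : VarClass k} {ops : CycleOps 𝒱}
  {W : WeilCohomology.{u, v} ops} {X Y Z : 𝒱.Obj}

/-- A nonzero class has a nonzero intersection number with a class of complementary degree. -/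
lemma exists_dual {j : ℕ} {w : W.H Z} (hw : w ∈ W.gr Z (2 * j)) (h0 : w ≠ 0) :
    ∃ y ∈ W.gr Z (2 * (Z.dim - j)), W.tr Z (w * y) ≠ 0 := by
  by_contra hcon
  push Not at hcon
  apply h0
  apply W.nondeg
  intro b
  refine gr_induction (W.isInternal Z) (p := fun b => W.tr Z (w * b) = 0) ?_ ?_ b
  · intro i b hb
    by_cases hj : j ≤ Z.dim
    · by_cases hi : i = 2 * (Z.dim - j)
      · subst hi
        exact hcon b hb
      · exact W.tr_eq_zero (W.mul_mem hw hb) (by omega)
    · rw [W.gr_eq_bot Z _ (by omega)] at hw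
      rw [(Submodule.mem_bot _).1 hw, zero_mul, map_zero]
  · intro a b ha hb; rw [mul_add, map_add, ha, hb, add_zero]

/-- Simultaneous choice of a class of complementary degree. -/
lemma exists_dual_finset {j : ℕ} (s : Finset (W.H Z)) (hs : ∀ w ∈ s, w ∈ W.gr Z (2 * j))
    (h0 : ∀ w ∈ s, w ≠ 0) : ∃ y ∈ W.gr Z (2 * (Z.dim - j)), ∀ w ∈ s, W.tr Z (w * y) ≠ 0 := by
  have : Infinite W.K := inferInstance
  obtain ⟨y, hy, h⟩ := Module.Dual.exists_forall_mem_ne_zero_of_forall_exists
    (ι := {w // w ∈ s}) (W.gr Z (2 * (Z.dim - j)))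
    (fun w => (W.tr Z ∘ₗ LinearMap.mulLeft W.K (w : W.H Z) : Module.Dual W.K (W.H Z)))
    (fun w => exists_dual (hs _ w.2) (h0 _ w.2))
  exact ⟨y, hy, fun w hw => h ⟨w, hw⟩⟩

section

variable {W : WeilCohomology.{u, 0} ops}

/-- **Operators of finite order.** If one polynomial kills all external powers of a class under an
operator which is compatible with external products, the operator has finite order on the class. -/
lemma pow_fix (γ : ∀ Z : 𝒱.Obj, Module.End W.K (W.H Z)) {j : ℕ} {v : W.H Z}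
    (hgr : ∀ i : ℕ, (γ Z ^ i) v ∈ W.gr Z (2 * j))
    (hx : ∀ m i : ℕ, (γ (pw Z m) ^ i) (xpw W v m) = xpw W ((γ Z ^ i) v) m)
    (hinj : Function.Injective (γ Z)) {μ : Polynomial W.K} (hμ : μ.Monic)
    (h : ∀ m, Polynomial.aeval (γ (pw Z m)) μ (xpw W v m) = 0) :
    (γ Z ^ μ.natDegree.factorial) v = v := by
  classical
  rcases eq_or_ne v 0 with rfl | hv
  · rw [map_zero]
  have hinj' : ∀ i : ℕ, Function.Injective (γ Z ^ i) := by
    intro i
    rw [Module.End.coe_pow]
    exact hinj.iterate i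
  -- the relation between the intersection numbers
  have key : ∀ y ∈ W.gr Z (2 * (Z.dim - j)), ∀ m : ℕ,
      ∑ i ∈ Finset.range (μ.natDegree + 1), μ.coeff i * W.tr Z ((γ Z ^ i) v * y) ^ (m + 1) = 0 := by
    intro y hy m
    have h1 := congrArg (fun t => W.tr (pw Z m) (t * xpw W y m)) (h m)
    simp only [zero_mul, map_zero] at h1
    rw [Polynomial.aeval_eq_sum_range, LinearMap.sum_apply, Finset.sum_mul, map_sum] at h1
    rw [← h1]
    refine Finset.sum_congr rfl fun i _ => ?_
    rw [LinearMap.smul_apply, hx, smul_mul_assoc, map_smul, smul_eq_mul,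
      tr_xpw (PH.of' (b := 0) (by omega) (hgr i)) (PH.of' (b := 0) (by omega) hy)]
  have h2 : ∃ i < μ.natDegree, (γ Z ^ i) v = (γ Z ^ μ.natDegree) v := by
    by_contra hcon
    push Not at hcon
    set s : Finset (W.H Z) := insert ((γ Z ^ μ.natDegree) v)
      ((Finset.range μ.natDegree).image fun i => (γ Z ^ i) v - (γ Z ^ μ.natDegree) v) with hs
    obtain ⟨y, hy, hys⟩ := exists_dual_finset (j := j) s (by
      intro w hw
      rcases Finset.mem_insert.1 hw with rfl | hw
      · exact hgr _
      · obtain ⟨i, -, rfl⟩ := Finset.mem_image.1 hw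
        exact Submodule.sub_mem _ (hgr _) (hgr _)) (by
      intro w hw
      rcases Finset.mem_insert.1 hw with rfl | hw
      · intro h0
        exact hv (hinj' _ (h0.trans (map_zero _).symm))
      · obtain ⟨i, hi, rfl⟩ := Finset.mem_image.1 hw
        exact sub_ne_zero.2 (hcon i (Finset.mem_range.1 hi)))
    refine vander hμ (ξ := fun i => W.tr Z ((γ Z ^ i) v * y)) ?_ ?_ (key y hy)
    · intro i hi heq
      apply hys ((γ Z ^ i) v - (γ Z ^ μ.natDegree) v)
        (Finset.mem_insert_of_mem (Finset.mem_image.2 ⟨i, Finset.mem_range.2 hi, rfl⟩))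
      rw [sub_mul, map_sub, sub_eq_zero]
      exact heq
    · exact hys _ (Finset.mem_insert_self _ _)
  obtain ⟨i, hi, heq⟩ := h2
  have h3 : (γ Z ^ (μ.natDegree - i)) v = v := by
    apply hinj' i
    rw [← Module.End.mul_apply, ← pow_add, Nat.add_sub_cancel' hi.le]
    exact heq.symm
  obtain ⟨r, hr⟩ : μ.natDegree - i ∣ μ.natDegree.factorial :=
    Nat.dvd_factorial (by omega) (by omega)
  rw [hr, pow_mul]
  clear hr
  induction r with
  | zero => simp
  | succ r ih => rw [pow_succ, Module.End.mul_apply, h3, ih]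

end

end Pool.Agent.K1H13.Z
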