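import Pool.Agent.K1H13.Z.Order
import Pool.Agent.K1H13.Z.Defs
import Pool.Agent.K1H13.L.Main

/-!
# The twisted action of the Galois group
-/

open CategoryTheory AlgebraicGeometry

universe u v

namespace Pool.Agent.K1H13.Z

open Module
open Pool.Agent.H914 Pool.Agent.H914.VarClass Pool.Agent.H914.VarClass.Obj
  Pool.Agent.H914.WeilCohomology
open Pool.Agent.Y133.Half Pool.Agent.Y121.AH
open Pool.Agent.K1H13.L (GaloisAction act_inv)

variable {k : Type u} [Field k] {𝒱 : VarClass k} {ops : CycleOps 𝒱}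
  {V : WeilCohomology.{u, v} ops} {Γ : Type} [Group Γ] (G : GaloisAction V Γ) {X Y Z : 𝒱.Obj}

/-- The action of `g` on the cohomology, twisted in degree `i` by the power `- ⌊i / 2⌋` of the
character. -/
noncomputable def tw (g : Γ) (X : 𝒱.Obj) : Module.End V.K (V.H X) :=
  (G.act X g).toLinearMap ∘ₗ dia (V.isInternal X) fun i => (((G.χ g)⁻¹ : V.Kˣ) : V.K) ^ (i / 2)

variable {G}

lemma tw_gr {g : Γ} {i : ℕ} {x : V.H X} (hx : x ∈ V.gr X i) :
    tw G g X x = (((G.χ g)⁻¹ : V.Kˣ) : V.K) ^ (i / 2) • G.act X g x := by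
  rw [tw, LinearMap.comp_apply, dia_apply _ _ hx, map_smul]
  rfl

lemma tw_mem {g : Γ} {i : ℕ} {x : V.H X} (hx : x ∈ V.gr X i) : tw G g X x ∈ V.gr X i := by
  rw [tw_gr hx]
  exact Submodule.smul_mem _ _ ((G.galois X).gr_mem g i x hx)

lemma tw_mul {g : Γ} {x y : V.H X} (hx : x ∈ PH V X 0) :
    tw G g X (x * y) = tw G g X x * tw G g X y := by
  refine PH.ind (p := fun x => tw G g X (x * y) = tw G g X x * tw G g X y) ?_ ?_ ?_ hx
  · intro i hi x hx
    refine gr_induction (V.isInternal X)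
      (p := fun y => tw G g X (x * y) = tw G g X x * tw G g X y) ?_ ?_ y
    · intro l y hy
      rw [tw_gr hx, tw_gr hy, tw_gr (V.mul_mem hx hy), smul_mul_smul_comm, ← pow_add, map_mul,
        show (i + l) / 2 = i / 2 + l / 2 by omega]
    · intro a b ha hb; rw [mul_add, map_add, ha, hb, map_add, mul_add]
  · rw [zero_mul, map_zero, zero_mul]
  · intro a b ha hb; rw [add_mul, map_add, ha, hb, map_add, add_mul]

lemma tw_map {g : Γ} (f : X ⟶ Y) (y : V.H Y) :
    tw G g X (V.map f y) = V.map f (tw G g Y y) := by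
  refine gr_induction (V.isInternal Y)
    (p := fun y => tw G g X (V.map f y) = V.map f (tw G g Y y)) ?_ ?_ y
  · intro i y hy
    rw [tw_gr hy, tw_gr (V.map_mem f hy), map_smul, G.map f]
  · intro a b ha hb; rw [map_add, map_add, ha, hb, map_add, map_add]

lemma act_push (g : Γ) (f : X ⟶ Y) (x : V.H X) :
    (G.χ g : V.K) ^ X.dim • G.act Y g (V.push f x) =
      (G.χ g : V.K) ^ Y.dim • V.push f (G.act X g x) := by
  apply V.tr_ext
  intro b
  have h1 : G.act Y g (V.push f x) * b = G.act Y g (V.push f x * G.act Y g⁻¹ b) := by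
    rw [map_mul, act_inv]
  have h2 : G.act X g x * V.map f b = G.act X g (x * V.map f (G.act Y g⁻¹ b)) := by
    rw [map_mul, G.map f, act_inv]
  rw [smul_mul_assoc, smul_mul_assoc, map_smul, map_smul, h1, (G.galois Y).tr_act, V.tr_push,
    V.tr_push, h2, (G.galois X).tr_act, smul_eq_mul, smul_eq_mul]
  ring

lemma tw_push {g : Γ} (f : X ⟶ Y) (x : V.H X) :
    tw G g Y (V.push f x) = V.push f (tw G g X x) := by
  refine gr_induction (V.isInternal X)
    (p := fun x => tw G g Y (V.push f x) = V.push f (tw G g X x)) ?_ ?_ x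
  · intro i x hx
    have h := V.push_mem f hx
    have h' := V.push_mem f ((G.galois X).gr_mem g i x hx)
    by_cases hd : 0 ≤ (i : ℤ) + 2 * ((Y.dim : ℤ) - X.dim)
    · obtain ⟨l, hl⟩ := Int.eq_ofNat_of_zero_le hd
      rw [hl, grZ_natCast] at h
      have hl2 : i + 2 * Y.dim = l + 2 * X.dim := by omega
      rw [tw_gr hx, tw_gr h, map_smul]
      have h3 := act_push (G := G) g f x
      have hχ : (G.χ g : V.K) ≠ 0 := (G.χ g).ne_zero
      have hinv : (((G.χ g)⁻¹ : V.Kˣ) : V.K) = ((G.χ g : V.Kˣ) : V.K)⁻¹ :=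
        Units.val_inv_eq_inv_val _
      rw [hinv]
      set t : V.K := (G.χ g : V.K) with ht
      have h4 : G.act Y g (V.push f x) = (t⁻¹ ^ X.dim * t ^ Y.dim) • V.push f (G.act X g x) := by
        rw [mul_smul, ← h3, smul_smul, inv_pow, inv_mul_cancel₀ (pow_ne_zero _ hχ), one_smul]
      rw [h4, smul_smul]
      congr 1
      have e : i / 2 + Y.dim = l / 2 + X.dim := by omega
      have h5 : t ^ (i / 2) * t ^ Y.dim = t ^ (l / 2) * t ^ X.dim := by
        rw [← pow_add, ← pow_add, e]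
      have h6 : t ^ (i / 2) ≠ 0 := pow_ne_zero _ hχ
      have h7 : t ^ (l / 2) ≠ 0 := pow_ne_zero _ hχ
      have h8 : t ^ X.dim ≠ 0 := pow_ne_zero _ hχ
      rw [inv_pow, inv_pow, inv_pow]
      field_simp
      rw [mul_comm, h5]
    · rw [grZ_of_neg (by omega), Submodule.mem_bot] at h h'
      rw [tw_gr hx, map_smul, h, h', map_zero, smul_zero]
  · intro a b ha hb; simp only [map_add, ha, hb]

lemma tw_mul_elt (g h : Γ) (x : V.H X) : tw G (g * h) X x = tw G g X (tw G h X x) := by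
  refine gr_induction (V.isInternal X)
    (p := fun x => tw G (g * h) X x = tw G g X (tw G h X x)) ?_ ?_ x
  · intro i x hx
    rw [tw_gr (tw_mem hx), tw_gr hx, tw_gr hx, map_smul, smul_smul, map_mul, map_mul,
      mul_inv, Units.val_mul, mul_pow]
    rfl
  · intro a b ha hb; simp only [map_add, ha, hb]

lemma tw_one (x : V.H X) : tw G 1 X x = x := by
  refine gr_induction (V.isInternal X) (p := fun x => tw G 1 X x = x) ?_ ?_ x
  · intro i x hx
    rw [tw_gr hx, map_one, map_one, inv_one, Units.val_one, one_pow, one_smul]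
    rfl
  · intro a b ha hb; rw [map_add, ha, hb]

lemma tw_inv (g : Γ) (x : V.H X) : tw G g⁻¹ X (tw G g X x) = x := by
  rw [← tw_mul_elt, inv_mul_cancel, tw_one]

lemma tw_injective (g : Γ) : Function.Injective (tw G g X) :=
  Function.LeftInverse.injective (tw_inv (G := G) g)

/-- A class of degree `2 j` is fixed by the twisted action of `g` if and only if `g` multiplies it
by `χ g ^ j`. -/
lemma tw_fix_iff {g : Γ} {j : ℕ} {x : V.H X} (hx : x ∈ V.gr X (2 * j)) :
    tw G g X x = x ↔ G.act X g x = (G.χ g : V.K) ^ j • x := by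
  have hj : 2 * j / 2 = j := by omega
  have hχ : (G.χ g : V.K) ≠ 0 := (G.χ g).ne_zero
  rw [tw_gr hx, hj, Units.val_inv_eq_inv_val, inv_pow, inv_smul_eq_iff₀ (pow_ne_zero _ hχ)]

/-- The operators of a system of fixed classes commute with the twisted action. -/
lemma op_tw {S : Sys V} {g : Γ} {P : 𝒱.Obj} (hS : ∀ c ∈ S.C (P.prod Z), tw G g _ c = c)
    {f : V.H P →ₗ[V.K] V.H Z} (hf : f ∈ S.Op P Z) (x : V.H P) :
    tw G g Z (f x) = f (tw G g P x) := by
  obtain ⟨c, hc, rfl⟩ := Sys.mem_Op.1 hf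
  rw [corr_apply, corr_apply, tw_push, tw_mul (S.even hc), hS c hc, tw_map]

lemma gen_tw {S : Sys V} {g : Γ} {P : 𝒱.Obj} (hS : ∀ c ∈ S.C (P.prod Z), tw G g _ c = c)
    {μ : Polynomial V.K} (hμ : Polynomial.aeval (tw G g P) μ = 0)
    {M : Submodule V.K (V.H P)} {x : V.H Z} (hx : x ∈ gen S P Z M) :
    Polynomial.aeval (tw G g Z) μ x = 0 := by
  induction hx using Submodule.span_induction with
  | mem x hx =>
    obtain ⟨f, hf, t, ht, rfl⟩ := hx
    rw [aeval_comm (fun x => op_tw hS hf x), hμ, LinearMap.zero_apply, map_zero]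
  | zero => rw [map_zero]
  | add x y _ _ hx hy => rw [map_add, hx, hy, add_zero]
  | smul r x _ hx => rw [map_smul, hx, smul_zero]

end Pool.Agent.K1H13.Z
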