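import Pool.Agent.K1H13.Z.Tw

/-!
# A subgroup of finite index fixes all Tate classes on all powers
-/

open CategoryTheory AlgebraicGeometry

universe u v

namespace Pool.Agent.K1H13.Z

open Module
open Pool.Agent.H914 Pool.Agent.H914.VarClass Pool.Agent.H914.VarClass.Obj
  Pool.Agent.H914.WeilCohomology
open Pool.Agent.Y133.Half Pool.Agent.Y121.AH
open Pool.Agent.K1H13.L (GaloisAction act_inv)

variable {k : Type u} [Field k] {𝒱 : VarClass k} {ops : CycleOps 𝒱}
  {V : WeilCohomology.{u, v} ops} {Γ : Type} [Group Γ] (G : GaloisAction V Γ) {X Y Z : 𝒱.Obj}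

/-- The coordinate functions of the action on the cohomology of `X`, and the character. -/
def coords (X : 𝒱.Obj) : Set (Γ → V.K) :=
  (Set.range fun p : Fin (finrank V.K (V.H X)) × Fin (finrank V.K (V.H X)) =>
    fun g => (Module.finBasis V.K (V.H X)).repr (G.act X g (Module.finBasis V.K (V.H X) p.1)) p.2) ∪
    {fun g => (G.χ g : V.K)}

lemma coords_finite : (coords G X).Finite :=
  (Set.finite_range _).union (Set.finite_singleton _)

/-- The algebra of the functions on the group which are polynomials in the coordinates. -/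
def alg (X : 𝒱.Obj) : Subalgebra V.K (Γ → V.K) := Algebra.adjoin V.K (coords G X)

lemma alg_noeth : IsNoetherianRing (alg G X) :=
  isNoetherianRing_of_fg (Subalgebra.fg_def.2 ⟨_, coords_finite G, rfl⟩)

lemma chi_mem : (fun g => (G.χ g : V.K)) ∈ alg G X :=
  Algebra.subset_adjoin (Or.inr rfl)

lemma const_mem (t : V.K) : (fun _ => t : Γ → V.K) ∈ alg G X :=
  (alg G X).algebraMap_mem t

lemma fun_mem_base (x : V.H X) (φ : V.H X →ₗ[V.K] V.K) :
    (fun g => φ (G.act X g x)) ∈ alg G X := by
  set b := Module.finBasis V.K (V.H X) with hb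
  have h1 : (fun g => φ (G.act X g x)) = ∑ j, ∑ i, (b.repr x j * φ (b i)) •
      (fun g => b.repr (G.act X g (b j)) i : Γ → V.K) := by
    funext g
    simp only [Finset.sum_apply, Pi.smul_apply, smul_eq_mul]
    have h2 : G.act X g x = ∑ j, b.repr x j • G.act X g (b j) := by
      conv_lhs => rw [← b.sum_repr x]
      rw [map_sum]
      exact Finset.sum_congr rfl fun j _ => map_smul _ _ _
    rw [h2, map_sum]
    refine Finset.sum_congr rfl fun j _ => ?_
    have h3 : φ (G.act X g (b j)) = ∑ i, b.repr (G.act X g (b j)) i * φ (b i) := by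
      conv_lhs => rw [← b.sum_repr (G.act X g (b j))]
      rw [map_sum]
      exact Finset.sum_congr rfl fun i _ => by rw [map_smul, smul_eq_mul]
    rw [map_smul, h3, smul_eq_mul, Finset.mul_sum]
    exact Finset.sum_congr rfl fun i _ => by ring
  rw [h1]
  refine Subalgebra.sum_mem _ fun j _ => Subalgebra.sum_mem _ fun i _ => ?_
  have h5 : (fun g => b.repr (G.act X g (b j)) i : Γ → V.K) ∈ alg G X :=
    Algebra.subset_adjoin (Or.inl ⟨(j, i), rfl⟩)
  exact (alg G X).smul_mem h5 _

/-- The matrix coefficients of the action on the cohomology of the powers. -/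
lemma fun_mem : ∀ (m : ℕ) (x : V.H (pw X m)) (φ : V.H (pw X m) →ₗ[V.K] V.K),
    (fun g => φ (G.act (pw X m) g x)) ∈ alg G X
  | 0 => fun x φ => fun_mem_base G x φ
  | m + 1 => by
    intro x φ
    have key : ∀ (x : V.H ((pw X m).prod X)) (φ : V.H ((pw X m).prod X) →ₗ[V.K] V.K),
        (fun g => φ (G.act ((pw X m).prod X) g x)) ∈ alg G X := by
      intro x φ
      refine V.kunneth_induction
        (p := fun x => (fun g => φ (G.act ((pw X m).prod X) g x)) ∈ alg G X) ?_ ?_ x
      · intro a b ha hb
        have h1 : (fun g => φ (G.act ((pw X m).prod X) g (a + b))) =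
            (fun g => φ (G.act ((pw X m).prod X) g a)) +
              fun g => φ (G.act ((pw X m).prod X) g b) := by
          funext g
          rw [map_add, map_add]
          rfl
        rw [h1]
        exact Subalgebra.add_mem _ ha hb
      · intro _ _ a _ c _
        set b := Module.finBasis V.K (V.H X) with hb
        have h1 : (fun g => φ (G.act ((pw X m).prod X) g
            (V.map (fst (pw X m) X) a * V.map (snd (pw X m) X) c))) =
            ∑ i, (fun g => b.repr (G.act X g c) i : Γ → V.K) *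
              (fun g => (φ ∘ₗ LinearMap.mulRight V.K (V.map (snd (pw X m) X) (b i)) ∘ₗ
                (V.map (fst (pw X m) X)).toLinearMap) (G.act (pw X m) g a)) := by
          funext g
          simp only [Finset.sum_apply, Pi.mul_apply]
          rw [map_mul, G.map (fst (pw X m) X), G.map (snd (pw X m) X)]
          have h2 : V.map (snd (pw X m) X) (G.act X g c) =
              ∑ i, b.repr (G.act X g c) i • V.map (snd (pw X m) X) (b i) := by
            conv_lhs => rw [← b.sum_repr (G.act X g c)]
            rw [map_sum]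
            exact Finset.sum_congr rfl fun j _ => map_smul _ _ _
          rw [h2, Finset.mul_sum, map_sum]
          refine Finset.sum_congr rfl fun i _ => ?_
          rw [mul_smul_comm, map_smul, smul_eq_mul]
          rfl
        rw [h1]
        refine Subalgebra.sum_mem _ fun i _ => Subalgebra.mul_mem _ ?_ (fun_mem m a _)
        exact fun_mem_base G c (b.coord i)
    exact key x φ

/-- The functions vanishing on a subgroup. -/
def vanIdeal (X : 𝒱.Obj) (H : Subgroup Γ) : Ideal (alg G X) where
  carrier := {f | ∀ g ∈ H, (f : Γ → V.K) g = 0}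
  add_mem' := by
    intro a b ha hb g hg
    change (a : Γ → V.K) g + (b : Γ → V.K) g = 0
    rw [ha g hg, hb g hg, add_zero]
  zero_mem' := fun g _ => rfl
  smul_mem' := by
    intro c a ha g hg
    change (c : Γ → V.K) g * (a : Γ → V.K) g = 0
    rw [ha g hg, mul_zero]

/-- **A subgroup of finite index fixes all Tate classes on all powers.** -/
theorem exists_unif (X : 𝒱.Obj) : ∃ H₀ : Subgroup Γ, H₀.FiniteIndex ∧
    ∀ (m : ℕ) (Z : 𝒱.Obj), Nonempty (Z ≅ pw X m) → ∀ j, ∀ c ∈ potTate G Z j, ∀ g ∈ H₀,
      G.act Z g c = (G.χ g : V.K) ^ j • c := by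
  have hno : IsNoetherianRing (alg G X) := alg_noeth G
  have hno' := set_has_maximal_iff_noetherian.2 hno
  obtain ⟨I, ⟨H₀, hH₀, rfl⟩, hI⟩ := hno'
    {I : Ideal (alg G X) | ∃ H : Subgroup Γ, H.FiniteIndex ∧ vanIdeal G X H = I}
    ⟨_, ⊤, inferInstance, rfl⟩
  refine ⟨H₀, hH₀, ?_⟩
  have main : ∀ (m : ℕ) (j : ℕ), ∀ c ∈ potTate G (pw X m) j, ∀ g ∈ H₀,
      G.act (pw X m) g c = (G.χ g : V.K) ^ j • c := by
    rintro m j c ⟨-, H, hH, hc⟩ g hg
    have h1 : vanIdeal G X H₀ ≤ vanIdeal G X (H ⊓ H₀) := fun f hf g hg => hf g hg.2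
    have h2 : vanIdeal G X (H ⊓ H₀) = vanIdeal G X H₀ := by
      by_contra hne
      exact hI _ ⟨H ⊓ H₀, inferInstance, rfl⟩ (lt_of_le_of_ne h1 (Ne.symm hne))
    rw [← sub_eq_zero, ← Module.forall_dual_apply_eq_zero_iff V.K]
    intro φ
    have h3 : (fun g => φ (G.act (pw X m) g c - (G.χ g : V.K) ^ j • c)) ∈ alg G X := by
      have h4 : (fun g => φ (G.act (pw X m) g c - (G.χ g : V.K) ^ j • c)) =
          (fun g => φ (G.act (pw X m) g c)) -
            φ c • (fun g => (G.χ g : V.K)) ^ j := by
        funext g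
        rw [map_sub, map_smul, smul_eq_mul, mul_comm]
        rfl
      rw [h4]
      exact Subalgebra.sub_mem _ (fun_mem G m c φ)
        ((alg G X).smul_mem ((alg G X).pow_mem (chi_mem G) j) _)
    have h5 : (⟨_, h3⟩ : alg G X) ∈ vanIdeal G X (H ⊓ H₀) := by
      intro g hg
      change φ (G.act (pw X m) g c - (G.χ g : V.K) ^ j • c) = 0
      rw [hc g hg.1, sub_self, map_zero]
    rw [h2] at h5
    exact h5 g hg
  rintro m Z ⟨θ⟩ j c hc g hg
  have h1 : V.map θ.inv c ∈ potTate G (pw X m) j := by
    obtain ⟨h1, H, hH, h2⟩ := hc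
    refine ⟨V.map_mem _ h1, H, hH, fun g hg => ?_⟩
    rw [G.map, h2 g hg, map_smul]
  have h2 := main m j _ h1 g hg
  have h3 : V.map θ.hom (V.map θ.inv c) = c := by
    rw [← V.map_comp, θ.hom_inv_id, V.map_id]
  rw [← h3, G.map, h2, map_smul]

end Pool.Agent.K1H13.Z
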